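import Pool.Agent.Helper43.FLU.Yinj
import Pool.Agent.Helper58.FL.Stage1
import Pool.Agent.Helper64.FL2.GauntFinal
import Pool.Agent.Helper81.FLQ.Small

/-!
# Project FLQ: the essential image of `Y` in presheaves of large simplicial sets
-/

open CategoryTheory MonoidalCategory Opposite

set_option autoImplicit false

namespace Pool.Agent.Helper43.FLU

open FL (SP HoEq Htpy sset_id sset_comp sset_nat Chain WS W BrS Th CatN IsCat Hoco HS coneS diag_comp
  Gn YD ND rep repMap filt yoS tower yo svDiag svCone svProj sieveCompare SvObj canDiag canCone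
  SegalDescent KnownGaunt KnownTheorem Flagged level SegCov)
open FLQ (SPU)
open Pool.Agent.Helper88.FL (hoEq_comp hoEq_of_comp_left hoEq_of_comp_right hoEq_of_isIso
  hoEq_of_arrow_iso hoEq_ulift_iff)

universe u

/-- Homotopy equivalences are weak homotopy equivalences, in any universe. -/
theorem pre_hoEq {X Y : SSet.{u}} {f : X ⟶ Y} (h : HoEq f) (K : SSet.{u}) :
    HoEq ((MonoidalClosed.pre f).app K) := by
  obtain ⟨g, h1, h2⟩ := h
  refine ⟨(MonoidalClosed.pre g).app K, ?_, ?_⟩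
  · have := Helper85FL.htpy_pre (a := g ≫ f) (b := 𝟙 Y) h2 K
    rw [MonoidalClosed.pre_map, MonoidalClosed.pre_id] at this
    exact this
  · have := Helper85FL.htpy_pre (a := f ≫ g) (b := 𝟙 X) h1 K
    rw [MonoidalClosed.pre_map, MonoidalClosed.pre_id] at this
    exact this

variable {n : ℕ}

/-- Presheaves with essentially small values. -/
def PSh.EssSmall (F : PSh n) : Prop :=
  ∀ C, ∃ (K : SSet.{0}) (f : F.obj C ⟶ SSet.uliftFunctor.{1, 0}.obj K), HoEq f

theorem segal_square (hrep : ∀ θ : Th n, IsCat n (rep θ)) {F : PSh n} {Z : SP (Th n)}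
    (i : upP Z ⟶ F.restr hrep) {θ : Th n} (S : Sieve θ) (hp : ∀ j, IsCat n ((svDiag S).obj j))
    (hC : IsCat n (rep θ)) :
    i.app (op θ) ≫ F.compare (svDiag S) hp hC (svCone S) =
      SSet.uliftFunctor.{1, 0}.map (sieveCompare Z S) ≫ (mpUp ((svProj S).op ⋙ Z)).inv ≫
        Mp.post (WU _) (Y := upP ((svProj S).op ⋙ Z)) (Y' := F.along (svDiag S) hp)
          (Functor.whiskerLeft (svProj S).op i) := by
  ext k x
  refine MpS.ext ?_
  funext j l s w
  have h1 := hom_nat i j.unop.f.op (k := l) ((SSet.uliftFunctor.{1, 0}.obj (Z.obj (op θ))).map s.op x)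
  have h2 := hom_natk i s.op x
  refine (congrArg (fun t => F.act (C := ⟨_, hp j.unop⟩) (C' := ⟨_, hC⟩) t
    ((F.obj ⟨rep θ, hC⟩).map s.op ((i.app (op θ)).app k x)))
    (Pool.Agent.Helper72.RKE.coneS_svCone S w.down)).trans ?_
  refine Eq.trans ?_ h1.symm
  exact congrArg (((F.restr hrep).map j.unop.f.op).app l) h2.symm

/-- Segal descent of a small model of the restriction to `Θ_n`. -/
theorem segal_small (hrep : ∀ θ : Th n, IsCat n (rep θ)) {F : PSh n} (hF : F.Kan)
    (hF' : F.GauntDescent) (hG : KnownGaunt n) {Z : SP (Th n)} (hZ : FL.ObjKan Z)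
    (i : upP Z ⟶ F.restr hrep) (hi : ∀ a, HoEq (i.app a)) : SegalDescent Z := by
  intro θ S hS
  have h := hG θ S hS
  have h1 := hF' _ _ _ _ h
  have hK1 : ObjKan (upP ((svProj S).op ⋙ Z)) := fun j => kan_up (hZ _)
  have hK2 : ObjKan (F.along (svDiag S) h.cat_obj) := fun j => hF _
  have h2 : HoEq (i.app (op θ) ≫ F.compare (svDiag S) h.cat_obj h.cat_pt (svCone S)) :=
    hoEq_comp (kan_up (hZ _)) (hF _) (Holim_kan hK2) (hi _) h1
  rw [segal_square, ← Category.assoc] at h2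
  have h3 : HoEq (SSet.uliftFunctor.{1, 0}.map (sieveCompare Z S) ≫
      (mpUp ((svProj S).op ⋙ Z)).inv) := by
    refine hoEq_of_comp_right (kan_up (hZ _)) (Holim_kan hK1) (Holim_kan hK2) ?_ h2
    exact Holim_hoEq hK1 hK2 _ (fun j => hi _)
  rw [← hoEq_ulift_iff]
  exact hoEq_of_arrow_iso (Iso.refl _) (mpUp ((svProj S).op ⋙ Z)) (by
    rw [Category.assoc, Iso.inv_hom_id, Category.comp_id]
    exact (Category.id_comp _).symm) h3

/-- A morphism `F ⟶ Y D` is an equivalence if it is one on `Θ_n`. -/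
theorem hoEq_of_restr (hrep : ∀ θ : Th n, IsCat n (rep θ)) {F : PSh n} (hF : F.Kan)
    (hF' : F.GauntDescent) {D : SP (Gn n)} (hD : FL.InjFib D) (hc : ∀ i, IsCat n (level D i))
    (φ : PSh.Hom F (upPSh (YD D))) (hφ : ∀ a, HoEq ((toRestr hrep φ).app a)) (C : CatN n) :
    HoEq (φ.app C) := by
  have hg := Pool.Agent.Helper91.FL17a.canCone_isGaunt hrep C.1 C.2
  have hYK : (upPSh (YD D)).Kan := fun C => kan_up (Pool.Agent.Helper91.FL17a.YD_kan hD C)
  have hK1 : ObjKan (F.along (canDiag C.1) hg.cat_obj) := fun j => hF _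
  have hK2 : ObjKan ((upPSh (YD D)).along (canDiag C.1) hg.cat_obj) := fun j => hYK _
  have h1 : HoEq (F.compare (canDiag C.1) hg.cat_obj hg.cat_pt (canCone C.1) ≫
      Mp.post (WU _) (alongMap φ (canDiag C.1) hg.cat_obj)) := by
    refine hoEq_comp (hF _) (Holim_kan hK1) (Holim_kan hK2) (hF' _ _ _ _ hg) ?_
    exact Holim_hoEq hK1 hK2 _ (fun j => hφ (op j.unop.a))
  rw [compare_square] at h1
  refine hoEq_of_comp_right (hF _) (hYK _) (Holim_kan hK2) ?_ h1
  exact (compare_up_iff _ _ _ _ _).2 (Pool.Agent.Helper91.FL17a.YD_gauntDescent hD hc _ _ _ _ hg)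

/-- The essential image of `Y`, in presheaves of large simplicial sets. -/
theorem main (hrep : ∀ θ : Th n, IsCat n (rep θ)) (hT : KnownTheorem n) (hG : KnownGaunt n)
    {F : PSh n} (hF : F.Kan) :
    (F.GauntDescent ∧ F.EssSmall) ↔
      ∃ D : SP (Gn n), Flagged D ∧ PSh.Equiv F (upPSh (YD D)) := by
  constructor
  · rintro ⟨hF', hs⟩
    obtain ⟨Z, i, hm, hZ, hi⟩ := Pool.Agent.Helper81.FLQ.exists_small (F.restr hrep)
      (fun a => hF _) (fun a => hs _)
    obtain ⟨D, hD, f, hf⟩ := (hT.2 Z hZ).1 (segal_small hrep hF hF' hG hZ i hi)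
    obtain ⟨g, hg⟩ := injFib_up (Pool.Agent.Helper36.FL.ND_injFib hD.inj) i
      ⟨hm, fun a K _ => pre_hoEq (hi a) K⟩ (upPm f)
    have hN : ∀ a, SSet.KanComplex ((ND D).obj a) := fun a =>
      Pool.Agent.Helper91.FL17a.YD_kan hD.inj ⟨rep a.unop, hrep _⟩
    have hg' : ∀ a, HoEq (g.app a) := by
      intro a
      have h1 : i.app a ≫ g.app a = (upPm f).app a := by
        rw [← hg]
        rfl
      have h2 : HoEq (i.app a ≫ g.app a) := by
        rw [h1]
        exact (hoEq_ulift_iff _).2 (hf a)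
      exact hoEq_of_comp_left (kan_up (hZ a)) (hF _) (kan_up (hN a)) (hi a) h2
    refine ⟨D, hD, ofRestr hrep g, fun C => ?_⟩
    refine hoEq_of_restr hrep hF hF' hD.inj hD.cat _ (fun a => ?_) C
    rw [toRestr_ofRestr]
    exact hg' a
  · rintro ⟨D, hD, φ, hφ⟩
    refine ⟨?_, fun C => ⟨(YD D).obj C, φ.app C, hφ C⟩⟩
    intro J _ p C Λ hΛ
    exact compare_hoEq_of_equiv hF
      (fun C => kan_up (Pool.Agent.Helper91.FL17a.YD_kan hD.inj C)) φ hφ p hΛ.cat_obj hΛ.cat_pt Λ
      ((compare_up_iff _ _ _ _ _).2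
        (Pool.Agent.Helper91.FL17a.YD_gauntDescent hD.inj hD.cat _ _ _ _ hΛ))

end Pool.Agent.Helper43.FLU
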