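import Pool.Agent.Helper43.FLU.Triv
import Pool.Agent.Helper43.FLQ.Public

/-!
# Project FLQ: mapping spaces of presheaves of simplicial sets in an arbitrary universe
-/

open CategoryTheory MonoidalCategory Simplicial Opposite

set_option autoImplicit false

namespace Pool.Agent.Helper43.FLU

open FL (HoEq Htpy sset_id sset_comp sset_nat Chain)
open FLQ (SPU)

universe u

section Elements

/-! Elementwise forms of functoriality and naturality. -/

variable {A : Type} [SmallCategory A]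

lemma sp_id (X : SPU.{u} A) {a : Aᵒᵖ} {k : SimplexCategoryᵒᵖ} (x : (X.obj a).obj k) :
    (X.map (𝟙 a)).app k x = x := by
  rw [CategoryTheory.Functor.map_id]; rfl

lemma sp_comp (X : SPU.{u} A) {a b c : Aᵒᵖ} (f : a ⟶ b) (g : b ⟶ c) {k : SimplexCategoryᵒᵖ}
    (x : (X.obj a).obj k) : (X.map (f ≫ g)).app k x = (X.map g).app k ((X.map f).app k x) := by
  rw [CategoryTheory.Functor.map_comp]; rfl

lemma sp_nat (X : SPU.{u} A) {a b : Aᵒᵖ} (f : a ⟶ b) {k l : SimplexCategoryᵒᵖ} (α : k ⟶ l)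
    (x : (X.obj a).obj k) :
    (X.map f).app l ((X.obj a).map α x) = (X.obj b).map α ((X.map f).app k x) :=
  sset_nat (X.map f) α x

lemma hom_nat {X Y : SPU.{u} A} (u : X ⟶ Y) {a b : Aᵒᵖ} (f : a ⟶ b) {k : SimplexCategoryᵒᵖ}
    (x : (X.obj a).obj k) :
    (u.app b).app k ((X.map f).app k x) = (Y.map f).app k ((u.app a).app k x) :=
  ConcreteCategory.congr_hom (NatTrans.congr_app (u.naturality f) k) x

lemma hom_natk {X Y : SPU.{u} A} (u : X ⟶ Y) {a : Aᵒᵖ} {k l : SimplexCategoryᵒᵖ} (α : k ⟶ l)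
    (x : (X.obj a).obj k) :
    (u.app a).app l ((X.obj a).map α x) = (Y.obj a).map α ((u.app a).app k x) :=
  sset_nat (u.app a) α x

end Elements

section Maps

variable {A : Type} [SmallCategory A]

/-- An `m`-simplex of the mapping space of `X` and `Y`: a map `X × Δ[m] ⟶ Y`, written out as a
family of functions `X(a)_k × Δ[m]_k → Y(a)_k`, natural in `a` and in `k`
(a `k`-simplex of `Δ[m]` is a monotone map `s : [k] → [m]`). -/
@[ext]
structure MpS (X Y : SPU.{u} A) (m : SimplexCategory) : Type u where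
  app (a : Aᵒᵖ) (k : SimplexCategoryᵒᵖ) (s : k.unop ⟶ m) (x : (X.obj a).obj k) : (Y.obj a).obj k
  nat_left : ∀ {a b : Aᵒᵖ} (f : a ⟶ b) (k : SimplexCategoryᵒᵖ) (s : k.unop ⟶ m)
    (x : (X.obj a).obj k), app b k s ((X.map f).app k x) = (Y.map f).app k (app a k s x)
  nat_right : ∀ (a : Aᵒᵖ) {k l : SimplexCategoryᵒᵖ} (g : k ⟶ l) (s : k.unop ⟶ m)
    (x : (X.obj a).obj k), app a l (g.unop ≫ s) ((X.obj a).map g x) =
      (Y.obj a).map g (app a k s x)

namespace MpS

variable {X Y Z : SPU.{u} A} {m n : SimplexCategory}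

/-- The simplicial structure: restriction along `α : [n] → [m]`. -/
@[simps]
def res (α : n ⟶ m) (φ : MpS X Y m) : MpS X Y n where
  app a k s x := φ.app a k (s ≫ α) x
  nat_left f k s x := φ.nat_left f k _ x
  nat_right a k l g s x := by
    rw [Category.assoc]
    exact φ.nat_right a g (s ≫ α) x

/-- Composition of maps. -/
@[simps]
def comp (φ : MpS X Y m) (ψ : MpS Y Z m) : MpS X Z m where
  app a k s x := ψ.app a k s (φ.app a k s x)
  nat_left f k s x := by rw [φ.nat_left, ψ.nat_left]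
  nat_right a k l g s x := by rw [φ.nat_right, ψ.nat_right]

/-- The simplex of the mapping space given by a strict map. -/
@[simps]
def ofHom (m : SimplexCategory) (f : X ⟶ Y) : MpS X Y m where
  app a k _ x := (f.app a).app k x
  nat_left g _ _ x := hom_nat f g x
  nat_right _ _ _ g _ x := hom_natk f g x

end MpS

/-- The mapping space: the simplicial set of maps `X × Δ[m] ⟶ Y`. -/
def Mp (X Y : SPU.{u} A) : SSet.{u} where
  obj m := MpS X Y m.unop
  map α := ↾ fun φ => φ.res α.unop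
  map_id m := by ext φ; simp
  map_comp α β := by ext φ; simp

/-- Precomposition with a strict map, as a map of mapping spaces. -/
def Mp.pre {X X' : SPU.{u} A} (f : X ⟶ X') (Y : SPU.{u} A) : Mp X' Y ⟶ Mp X Y where
  app m := ↾ fun φ => (MpS.ofHom m.unop f).comp φ
  naturality m n α := by ext φ; rfl

/-- Postcomposition with a strict map, as a map of mapping spaces. -/
def Mp.post (X : SPU.{u} A) {Y Y' : SPU.{u} A} (f : Y ⟶ Y') : Mp X Y ⟶ Mp X Y' where
  app m := ↾ fun φ => φ.comp (MpS.ofHom m.unop f)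
  naturality m n α := by ext φ; rfl

end Maps

section Tensor

variable {A : Type} [SmallCategory A]

/-- The tensor of a simplicial presheaf with a simplicial set. -/
def tn (X : SPU.{u} A) (K : SSet.{u}) : SPU.{u} A := X ⋙ tensorRight K

/-- Functoriality of the tensor. -/
def tnMap {X Y : SPU.{u} A} {K L : SSet.{u}} (f : X ⟶ Y) (g : K ⟶ L) : tn X K ⟶ tn Y L where
  app a := f.app a ⊗ₘ g
  naturality a b h := by
    ext k ⟨x, y⟩
    exact Prod.ext (hom_nat f h x) rfl

@[simp] lemma tn_obj_obj (X : SPU.{u} A) (K : SSet.{u}) (a : Aᵒᵖ) (k : SimplexCategoryᵒᵖ) :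
    ((tn X K).obj a).obj k = ((X.obj a).obj k × K.obj k) := rfl

lemma tnMap_app_app {X Y : SPU.{u} A} {K L : SSet.{u}} (f : X ⟶ Y) (g : K ⟶ L) (a : Aᵒᵖ)
    (k : SimplexCategoryᵒᵖ) (x : (X.obj a).obj k) (y : K.obj k) :
    ((tnMap f g).app a).app k (x, y) = ((f.app a).app k x, g.app k y) := rfl

lemma tn_map_app {X : SPU.{u} A} {K : SSet.{u}} {a b : Aᵒᵖ} (f : a ⟶ b)
    (k : SimplexCategoryᵒᵖ) (x : (X.obj a).obj k) (y : K.obj k) :
    ((tn X K).map f).app k (x, y) = ((X.map f).app k x, y) := rfl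

lemma tn_obj_map {X : SPU.{u} A} {K : SSet.{u}} {a : Aᵒᵖ}
    {k l : SimplexCategoryᵒᵖ} (α : k ⟶ l) (x : (X.obj a).obj k) (y : K.obj k) :
    ((tn X K).obj a).map α (x, y) = ((X.obj a).map α x, K.map α y) := rfl

lemma tnMap_id (X : SPU.{u} A) (K : SSet.{u}) : tnMap (𝟙 X) (𝟙 K) = 𝟙 _ := rfl

lemma tnMap_comp {X Y Z : SPU.{u} A} {K L M : SSet.{u}} (f : X ⟶ Y) (g : K ⟶ L) (f' : Y ⟶ Z)
    (g' : L ⟶ M) : tnMap f g ≫ tnMap f' g' = tnMap (f ≫ f') (g ≫ g') := rfl

/-- The universal property of the mapping space: maps `K ⟶ Map(X, Y)` are maps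
`X ⊗ K ⟶ Y`. -/
def Mp.adj {X Y : SPU.{u} A} {K : SSet.{u}} : (K ⟶ Mp X Y) ≃ (tn X K ⟶ Y) where
  toFun f :=
    { app := fun a =>
        { app := fun k => ↾ fun (z : (X.obj a).obj k × K.obj k) =>
            (f.app k z.2 : MpS X Y k.unop).app a k (𝟙 _) z.1
          naturality := fun k l α => by
            ext ⟨x, y⟩
            show (f.app l (K.map α y) : MpS X Y l.unop).app a l (𝟙 _) ((X.obj a).map α x) = _
            rw [sset_nat f α y]
            show (f.app k y : MpS X Y k.unop).app a l (𝟙 _ ≫ α.unop) ((X.obj a).map α x) = _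
            refine Eq.trans ?_ ((f.app k y : MpS X Y k.unop).nat_right a α (𝟙 _) x)
            rw [Category.comp_id, Category.id_comp] }
      naturality := fun a b g => by
        ext k ⟨x, y⟩
        exact (f.app k y : MpS X Y k.unop).nat_left g k (𝟙 _) x }
  invFun f :=
    { app := fun k => ↾ fun y =>
        { app := fun a l s x => (f.app a).app l (x, K.map s.op y)
          nat_left := fun g l s x => hom_nat f g (x, K.map s.op y)
          nat_right := fun a {l m} g s x => by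
            refine Eq.trans ?_ (hom_natk f g (x, K.map s.op y))
            refine congrArg ((f.app a).app m) (Prod.ext rfl ?_)
            exact sset_comp K s.op g y }
      naturality := fun k l α => by
        ext y
        refine MpS.ext ?_
        funext a m s x
        refine congrArg ((f.app a).app m) (Prod.ext rfl ?_)
        exact (sset_comp K α s.op y).symm }
  left_inv f := by
    ext k y
    refine MpS.ext ?_
    funext a l s x
    show (f.app l (K.map s.op y) : MpS X Y l.unop).app a l (𝟙 _) x = _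
    rw [sset_nat f s.op y]
    show (f.app k y : MpS X Y k.unop).app a l (𝟙 _ ≫ s) x = _
    rw [Category.id_comp]
    rfl
  right_inv f := by
    ext a k ⟨x, y⟩
    refine congrArg ((f.app a).app k) (Prod.ext rfl ?_)
    exact sset_id K y

lemma Mp.adj_apply {X Y : SPU.{u} A} {K : SSet.{u}} (f : K ⟶ Mp X Y) (a : Aᵒᵖ)
    (k : SimplexCategoryᵒᵖ) (x : (X.obj a).obj k) (y : K.obj k) :
    ((Mp.adj f).app a).app k (x, y) = (f.app k y : MpS X Y k.unop).app a k (𝟙 _) x := rfl

lemma Mp.adj_symm_apply {X Y : SPU.{u} A} {K : SSet.{u}} (f : tn X K ⟶ Y) (k : SimplexCategoryᵒᵖ)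
    (y : K.obj k) (a : Aᵒᵖ) (l : SimplexCategoryᵒᵖ) (s : l.unop ⟶ k.unop)
    (x : (X.obj a).obj l) :
    ((Mp.adj.symm f).app k y : MpS X Y k.unop).app a l s x = (f.app a).app l (x, K.map s.op y) :=
  rfl

lemma Mp.adj_pre {X X' Y : SPU.{u} A} {K : SSet.{u}} (g : X ⟶ X') (f : K ⟶ Mp X' Y) :
    Mp.adj (f ≫ Mp.pre g Y) = tnMap g (𝟙 K) ≫ Mp.adj f := rfl

lemma Mp.adj_post {X Y Y' : SPU.{u} A} {K : SSet.{u}} (g : Y ⟶ Y') (f : K ⟶ Mp X Y) :
    Mp.adj (f ≫ Mp.post X g) = Mp.adj f ≫ g := rfl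

lemma Mp.adj_comp {X Y : SPU.{u} A} {K L : SSet.{u}} (j : K ⟶ L) (f : L ⟶ Mp X Y) :
    Mp.adj (j ≫ f) = tnMap (𝟙 X) j ≫ Mp.adj f := rfl

end Tensor

/-- Objectwise Kan presheaves. -/
def ObjKan {A : Type} [SmallCategory A] (Z : SPU.{u} A) : Prop := ∀ a, SSet.KanComplex (Z.obj a)

/-- Objectwise homotopy equivalences. -/
def ObjHoEq {A : Type} [SmallCategory A] {X Y : SPU.{u} A} (f : X ⟶ Y) : Prop :=
  ∀ a, HoEq (f.app a)

end Pool.Agent.Helper43.FLU
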