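import Pool.Agent.Helper43.FLU.WLift
import Pool.Agent.Helper41.FL2.BiNerve

/-!
# Project FLQ: the bivariant relative nerve (any universe)
-/

open CategoryTheory MonoidalCategory Simplicial Opposite

set_option autoImplicit false

namespace Pool.Agent.Helper43.FLU.Bi

open FL (HoEq Htpy sset_id sset_comp sset_nat Chain WS W)
open FLQ (SPU)
open Helper41FL2 (E2 endTo endTo_comp endBack endTo_back endBack_to surj_zero surj_last)

universe u

variable {A : Type} [SmallCategory A]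

/-- A `k`-simplex of the relative nerve of `G`. -/
structure RN (G : SPU.{u} (A × Aᵒᵖ)) (k : SimplexCategory) : Type u where
  σ : Chain A k
  g : ∀ (l : SimplexCategory) (α : l ⟶ k), (G.obj (op (E2 (σ.res α)))).obj (op l)
  nat : ∀ {l l' : SimplexCategory} (α : l ⟶ k) (β : l' ⟶ l),
    (G.map (endTo (σ.res α) β).op).app (op l') (g l' (β ≫ α)) =
      (G.obj (op (E2 (σ.res α)))).map β.op (g l α)

lemma RN.ext_of {G : SPU.{u} (A × Aᵒᵖ)} {k : SimplexCategory} {z z' : RN G k} (h : z.σ = z'.σ)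
    (h' : HEq z.g z'.g) : z = z' := by
  cases z
  cases z'
  cases h
  cases h'
  rfl

/-- Restriction. -/
def RN.res {G : SPU.{u} (A × Aᵒᵖ)} {k k' : SimplexCategory} (z : RN G k) (γ : k' ⟶ k) : RN G k' where
  σ := z.σ.res γ
  g l α := z.g l (α ≫ γ)
  nat α β := z.nat (α ≫ γ) β

lemma RN.g_id_comp {G : SPU.{u} (A × Aᵒᵖ)} {k l : SimplexCategory} (z : RN G k) (α : l ⟶ k) :
    z.g l (𝟙 l ≫ α) = z.g l α := eq_of_heq (congr_arg_heq (z.g l) (Category.id_comp α))

lemma RN.g_comp_id {G : SPU.{u} (A × Aᵒᵖ)} {k l : SimplexCategory} (z : RN G k) (α : l ⟶ k) :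
    z.g l (α ≫ 𝟙 k) = z.g l α := eq_of_heq (congr_arg_heq (z.g l) (Category.comp_id α))

lemma RN.res_id {G : SPU.{u} (A × Aᵒᵖ)} {k : SimplexCategory} (z : RN G k) : z.res (𝟙 k) = z := by
  refine RN.ext_of rfl (heq_of_eq ?_)
  funext l α
  exact z.g_comp_id α

/-- The relative nerve. -/
def RNv (G : SPU.{u} (A × Aᵒᵖ)) : SSet.{u} where
  obj k := RN G k.unop
  map α := ↾ fun z => z.res α.unop
  map_id _ := by
    ext z
    exact z.res_id
  map_comp _ _ := rfl

/-- Functoriality. -/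
def RN.mapq {G G' : SPU.{u} (A × Aᵒᵖ)} (q : G ⟶ G') {k : SimplexCategory} (z : RN G k) : RN G' k where
  σ := z.σ
  g l α := (q.app _).app _ (z.g l α)
  nat {l l'} α β := by
    refine (hom_nat q _ _).symm.trans ?_
    refine (congrArg ((q.app _).app (op l')) (z.nat α β)).trans ?_
    exact hom_natk q β.op _

/-- Functoriality. -/
def RNv.mapq {G G' : SPU.{u} (A × Aᵒᵖ)} (q : G ⟶ G') : RNv G ⟶ RNv G' where
  app k := ↾ fun (z : RN G k.unop) => RN.mapq q z
  naturality _ _ _ := rfl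

/-- The value at the identity. -/
def val {G : SPU.{u} (A × Aᵒᵖ)} {k : SimplexCategory} (z : RN G k) (τ : Chain A k) (h : z.σ = τ) :
    (G.obj (op (E2 τ))).obj (op k) := by
  subst h
  exact z.g k (𝟙 k)

lemma val_res_self {G : SPU.{u} (A × Aᵒᵖ)} {k l : SimplexCategory} (z : RN G k) (α : l ⟶ k)
    (h : (z.res α).σ = z.σ.res α) : val (z.res α) (z.σ.res α) h = z.g l α :=
  z.g_id_comp α

lemma val_res {G : SPU.{u} (A × Aᵒᵖ)} {k l : SimplexCategory} (z : RN G k) (τ : Chain A k)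
    (h : z.σ = τ) (β : l ⟶ k) (h' : (z.res β).σ = τ.res β) :
    (G.map (endTo τ β).op).app (op l) (val (z.res β) (τ.res β) h') =
      (G.obj (op (E2 τ))).map β.op (val z τ h) := by
  subst h
  refine Eq.trans ?_ (z.nat (𝟙 k) β)
  refine congrArg ((G.map (endTo z.σ β).op).app (op l)) ?_
  refine (val_res_self z β h').trans ?_
  exact (z.g_comp_id β).symm

lemma val_mapq {G G' : SPU.{u} (A × Aᵒᵖ)} (q : G ⟶ G') {k : SimplexCategory} (z : RN G k)
    (τ : Chain A k) (h : z.σ = τ) (h' : (z.mapq q).σ = τ) :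
    val (z.mapq q) τ h' = (q.app (op (E2 τ))).app (op k) (val z τ h) := by
  subst h
  rfl

lemma RN.ext' {G : SPU.{u} (A × Aᵒᵖ)} {k : SimplexCategory} {z z' : RN G k} (h : z.σ = z'.σ)
    (h' : ∀ (l : SimplexCategory) (α : l ⟶ k) (h1 : (z.res α).σ = z'.σ.res α),
      val (z.res α) (z'.σ.res α) h1 = z'.g l α) : z = z' := by
  obtain ⟨σ, g, n⟩ := z
  obtain ⟨σ', g', n'⟩ := z'
  obtain rfl : σ = σ' := h
  refine RN.ext_of rfl (heq_of_eq ?_)
  funext l α
  exact (RN.g_id_comp (RN.mk σ g n) α).symm.trans (h' l α rfl)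

lemma val_congr {G : SPU.{u} (A × Aᵒᵖ)} {k : SimplexCategory} {z z' : RN G k} (hz : z = z')
    (τ : Chain A k) (h : z.σ = τ) (h' : z'.σ = τ) : val z τ h = val z' τ h' := by
  subst hz
  rfl

lemma RN.ext'' {G : SPU.{u} (A × Aᵒᵖ)} {k : SimplexCategory} {z z' : RN G k} (τ : Chain A k)
    (h : z.σ = τ) (h' : z'.σ = τ)
    (H : ∀ (l : SimplexCategory) (α : l ⟶ k) (h1 : (z.res α).σ = τ.res α)
      (h2 : (z'.res α).σ = τ.res α),
      val (z.res α) (τ.res α) h1 = val (z'.res α) (τ.res α) h2) : z = z' := by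
  subst h'
  exact RN.ext' h fun l α h1 => (H l α h1 rfl).trans (val_res_self z' α rfl)

lemma map_endTo_comp (G : SPU.{u} (A × Aᵒᵖ)) {k l m : SimplexCategory} (σ : Chain A k) (α : l ⟶ k)
    (β : m ⟶ l) (o : SimplexCategoryᵒᵖ)
    (x : (G.obj (op (E2 (σ.res (β ≫ α))))).obj o) :
    (G.map (endTo σ α).op).app o ((G.map (endTo (σ.res α) β).op).app o x) =
      (G.map (endTo σ (β ≫ α)).op).app o x := by
  refine (sp_comp G _ _ x).symm.trans ?_
  exact congrArg (fun f => (G.map (Quiver.Hom.op f)).app o x) (endTo_comp σ α β)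

lemma map_back (G : SPU.{u} (A × Aᵒᵖ)) {k l : SimplexCategory} (σ : Chain A k) (α : l ⟶ k)
    (h0 : α.toOrderHom 0 ≤ 0) (h1 : Fin.last _ ≤ α.toOrderHom (Fin.last _))
    (o : SimplexCategoryᵒᵖ) (x : (G.obj (op (E2 (σ.res α)))).obj o) :
    (G.map (endBack σ α h0 h1).op).app o ((G.map (endTo σ α).op).app o x) = x := by
  refine (sp_comp G _ _ x).symm.trans ?_
  refine (congrArg (fun f => (G.map (Quiver.Hom.op f)).app o x) (endBack_to σ α h0 h1)).trans ?_
  exact sp_id G x

lemma map_back' (G : SPU.{u} (A × Aᵒᵖ)) {k l : SimplexCategory} (σ : Chain A k) (α : l ⟶ k)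
    (h0 : α.toOrderHom 0 ≤ 0) (h1 : Fin.last _ ≤ α.toOrderHom (Fin.last _))
    (o : SimplexCategoryᵒᵖ) (x : (G.obj (op (E2 σ))).obj o) :
    (G.map (endTo σ α).op).app o ((G.map (endBack σ α h0 h1).op).app o x) = x := by
  refine (sp_comp G _ _ x).symm.trans ?_
  refine (congrArg (fun f => (G.map (Quiver.Hom.op f)).app o x) (endTo_back σ α h0 h1)).trans ?_
  exact sp_id G x

theorem rn_bdFill {G G' : SPU.{u} (A × Aᵒᵖ)} (q : G ⟶ G') (hq : ∀ j, TrivFib (q.app j)) (n : ℕ) :
    BdFill (RNv.mapq q) n := by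
  classical
  intro (e : ∀ (l : SimplexCategory) (α : l ⟶ ⦋n⦌), ¬ Function.Surjective α.toOrderHom → RN G l)
    (he : ∀ (l l' : SimplexCategory) (α : l ⟶ ⦋n⦌) (β : l' ⟶ l)
      (h : ¬ Function.Surjective α.toOrderHom)
      (h' : ¬ Function.Surjective (β ≫ α).toOrderHom), (e l α h).res β = e l' (β ≫ α) h')
    (z' : RN G' ⦋n⦌)
    (hz' : ∀ (l : SimplexCategory) (α : l ⟶ ⦋n⦌) (h : ¬ Function.Surjective α.toOrderHom),
      (e l α h).mapq q = z'.res α)
  have hσ : ∀ (l : SimplexCategory) (α : l ⟶ ⦋n⦌) (h : ¬ Function.Surjective α.toOrderHom),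
      (e l α h).σ = z'.σ.res α := fun l α h => congrArg RN.σ (hz' l α h)
  let v : ∀ (l : SimplexCategory) (α : l ⟶ ⦋n⦌), ¬ Function.Surjective α.toOrderHom →
      (G.obj (op (E2 (z'.σ.res α)))).obj (op l) :=
    fun l α h => val (e l α h) (z'.σ.res α) (hσ l α h)
  have hcomp : ∀ {l l' : SimplexCategory} (α : l ⟶ ⦋n⦌) (β : l' ⟶ l),
      ¬ Function.Surjective α.toOrderHom → ¬ Function.Surjective (β ≫ α).toOrderHom := by
    intro l l' α β h h'
    exact h (Function.Surjective.of_comp (g := β.toOrderHom) h')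
  have hv_nat : ∀ {l l' : SimplexCategory} (α : l ⟶ ⦋n⦌) (β : l' ⟶ l)
      (h : ¬ Function.Surjective α.toOrderHom) (h' : ¬ Function.Surjective (β ≫ α).toOrderHom),
      (G.map (endTo (z'.σ.res α) β).op).app (op l') (v l' (β ≫ α) h') =
        (G.obj (op (E2 (z'.σ.res α)))).map β.op (v l α h) := by
    intro l l' α β h h'
    have h1 : ((e l α h).res β).σ = (z'.σ.res α).res β := congrArg (Chain.res · β) (hσ l α h)
    refine Eq.trans ?_ (val_res (e l α h) (z'.σ.res α) (hσ l α h) β h1)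
    exact congrArg ((G.map (endTo (z'.σ.res α) β).op).app (op l'))
      (val_congr (he l l' α β h h').symm _ _ _)
  have hv_q : ∀ {l : SimplexCategory} (α : l ⟶ ⦋n⦌) (h : ¬ Function.Surjective α.toOrderHom),
      (q.app _).app (op l) (v l α h) = z'.g l α := by
    intro l α h
    refine (val_mapq q (e l α h) (z'.σ.res α) (hσ l α h) (hσ l α h)).symm.trans ?_
    refine (val_congr (hz' l α h) (z'.σ.res α) _ rfl).trans ?_
    exact val_res_self z' α rfl
  obtain ⟨x, hx1, hx2⟩ := bdFill_of_lift (hq (op (E2 z'.σ)) n)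
    (fun l α h => (G.map (endTo z'.σ α).op).app (op l) (v l α h))
    (by
      intro l l' α β h h'
      refine (sp_nat G (endTo z'.σ α).op β.op (v l α h)).symm.trans ?_
      refine (congrArg ((G.map (endTo z'.σ α).op).app (op l')) (hv_nat α β h h').symm).trans ?_
      exact map_endTo_comp G z'.σ α β _ _)
    (z'.g ⦋n⦌ (𝟙 _))
    (by
      intro l α h
      refine (hom_nat q (endTo z'.σ α).op (v l α h)).trans ?_
      refine (congrArg ((G'.map (endTo z'.σ α).op).app (op l))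
        ((hv_q α h).trans (z'.g_comp_id α).symm)).trans ?_
      exact z'.nat (𝟙 _) α)
  let g : ∀ (l : SimplexCategory) (α : l ⟶ ⦋n⦌), (G.obj (op (E2 (z'.σ.res α)))).obj (op l) :=
    fun l α => if h : Function.Surjective α.toOrderHom then
      (G.map (endBack z'.σ α (surj_zero α h) (surj_last α h)).op).app (op l)
        ((G.obj (op (E2 z'.σ))).map α.op x)
    else v l α h
  have hg1 : ∀ {l : SimplexCategory} (α : l ⟶ ⦋n⦌) (h : ¬ Function.Surjective α.toOrderHom),
      g l α = v l α h := fun α h => dif_neg h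
  have hg2 : ∀ {l : SimplexCategory} (α : l ⟶ ⦋n⦌) (h : Function.Surjective α.toOrderHom),
      g l α = (G.map (endBack z'.σ α (surj_zero α h) (surj_last α h)).op).app (op l)
        ((G.obj (op (E2 z'.σ))).map α.op x) := fun α h => dif_pos h
  have key : ∀ {l : SimplexCategory} (α : l ⟶ ⦋n⦌),
      (G.map (endTo z'.σ α).op).app (op l) (g l α) = (G.obj (op (E2 z'.σ))).map α.op x := by
    intro l α
    by_cases h : Function.Surjective α.toOrderHom
    · rw [hg2 α h]
      exact map_back' G z'.σ α (surj_zero α h) (surj_last α h) (op l) _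
    · rw [hg1 α h]
      exact (hx2 l α h).symm
  have inj : ∀ {l : SimplexCategory} (α : l ⟶ ⦋n⦌) (_ : Function.Surjective α.toOrderHom)
      (G₀ : SPU.{u} (A × Aᵒᵖ)) (o : SimplexCategoryᵒᵖ) (y y' : (G₀.obj (op (E2 (z'.σ.res α)))).obj o),
      (G₀.map (endTo z'.σ α).op).app o y = (G₀.map (endTo z'.σ α).op).app o y' → y = y' := by
    intro l α h G₀ o y y' hyy
    have h1 := congrArg
      ((G₀.map (endBack z'.σ α (surj_zero α h) (surj_last α h)).op).app o) hyy
    have h2 := map_back G₀ z'.σ α (surj_zero α h) (surj_last α h) o y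
    have h3 := map_back G₀ z'.σ α (surj_zero α h) (surj_last α h) o y'
    exact h2.symm.trans (h1.trans h3)
  have hnat : ∀ {l l' : SimplexCategory} (α : l ⟶ ⦋n⦌) (β : l' ⟶ l),
      (G.map (endTo (z'.σ.res α) β).op).app (op l') (g l' (β ≫ α)) =
        (G.obj (op (E2 (z'.σ.res α)))).map β.op (g l α) := by
    intro l l' α β
    by_cases h : Function.Surjective α.toOrderHom
    · apply inj α h
      refine (map_endTo_comp G z'.σ α β _ _).trans ?_
      refine (key (β ≫ α)).trans ?_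
      refine (sset_comp _ α.op β.op x).trans ?_
      refine (congrArg ((G.obj (op (E2 z'.σ))).map β.op) (key α).symm).trans ?_
      exact (sp_nat G (endTo z'.σ α).op β.op (g l α)).symm
    · rw [hg1 α h, hg1 (β ≫ α) (hcomp α β h)]
      exact hv_nat α β h _
  refine ⟨(⟨z'.σ, g, hnat⟩ : RN G ⦋n⦌), ?_, ?_⟩
  · refine RN.ext_of rfl (heq_of_eq ?_)
    funext l α
    change (q.app _).app (op l) (g l α) = z'.g l α
    by_cases h : Function.Surjective α.toOrderHom
    · apply inj α h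
      refine (hom_nat q (endTo z'.σ α).op (g l α)).symm.trans ?_
      refine (congrArg ((q.app _).app (op l)) (key α)).trans ?_
      refine (hom_natk q α.op x).trans ?_
      refine (congrArg ((G'.obj (op (E2 z'.σ))).map α.op) hx1).trans ?_
      refine (z'.nat (𝟙 _) α).symm.trans ?_
      exact congrArg ((G'.map (endTo z'.σ α).op).app (op l)) (z'.g_comp_id α)
    · rw [hg1 α h]
      exact hv_q α h
  · intro l α h
    refine RN.ext'' (z'.σ.res α) rfl (hσ l α h) fun l' β h1 h2 => ?_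
    refine (val_res_self (RN.res (⟨z'.σ, g, hnat⟩ : RN G ⦋n⦌) α) β rfl).trans ?_
    change g l' (β ≫ α) = _
    rw [hg1 (β ≫ α) (hcomp α β h)]
    exact val_congr (he l l' α β h _).symm _ _ _

theorem rnv_trivFib {G G' : SPU.{u} (A × Aᵒᵖ)} (q : G ⟶ G') (hq : ∀ j, TrivFib (q.app j)) :
    TrivFib (RNv.mapq q) := fun n => lift_of_bdFill (rn_bdFill q hq n)

/-- The projection of the relative nerve. -/
def RNv.proj (G : SPU.{u} (A × Aᵒᵖ)) : RNv G ⟶ NvU.{u} A where
  app k := ↾ fun (z : RN G k.unop) => ULift.up z.σ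
  naturality _ _ _ := rfl

/-- Families of simplices `φ(σ) ∈ G(σ_0, σ_k)_k`, natural in the chain `σ`. -/
structure Fam (G : SPU.{u} (A × Aᵒᵖ)) : Type u where
  v : ∀ {k : SimplexCategory} (σ : Chain A k), (G.obj (op (E2 σ))).obj (op k)
  nat : ∀ {k l : SimplexCategory} (σ : Chain A k) (α : l ⟶ k),
    (G.map (endTo σ α).op).app (op l) (v (σ.res α)) = (G.obj (op (E2 σ))).map α.op (v σ)

/-- The section of the relative nerve attached to a family. -/
def Fam.sec {G : SPU.{u} (A × Aᵒᵖ)} (f : Fam G) : NvU.{u} A ⟶ RNv G where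
  app k := ↾ fun (σ : ULift.{u} (Chain A k.unop)) =>
    (⟨σ.down, fun l α => f.v (σ.down.res α), fun α β => f.nat (σ.down.res α) β⟩ : RN G k.unop)
  naturality k l α := by
    ext σ
    rfl

/-- Families lift along objectwise trivial fibrations. -/
theorem Fam.lift {G G' : SPU.{u} (A × Aᵒᵖ)} (q : G ⟶ G') (hq : ∀ j, TrivFib (q.app j))
    (f : Fam G') : ∃ g : Fam G, ∀ {k : SimplexCategory} (σ : Chain A k),
      (q.app (op (E2 σ))).app (op k) (g.v σ) = f.v σ := by
  have hl := TrivFib.lift (rnv_trivFib q hq) ((⊥ : (NvU.{u} A).Subcomplex).ι)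
  let t : ((⊥ : (NvU.{u} A).Subcomplex) : SSet.{u}) ⟶ RNv G :=
    { app := fun k => ↾ fun x => (x.2 : False).elim
      naturality := fun k l α => by
        ext x
        exact (x.2 : False).elim }
  have sq : CommSq t ((⊥ : (NvU.{u} A).Subcomplex).ι) (RNv.mapq q) f.sec := ⟨by
    ext k x
    exact (x.2 : False).elim⟩
  have h2 : sq.lift ≫ RNv.mapq q = f.sec := sq.fac_right
  have hs : sq.lift ≫ RNv.proj G = 𝟙 _ := by
    have h3 : sq.lift ≫ RNv.mapq q ≫ RNv.proj G' = f.sec ≫ RNv.proj G' :=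
      (Category.assoc _ _ _).symm.trans (congrArg (· ≫ RNv.proj G') h2)
    exact h3
  have hσ : ∀ {k : SimplexCategory} (σ : Chain A k),
      (sq.lift.app (op k) (ULift.up σ) : RN G k).σ = σ := fun {k} σ =>
    congrArg (fun (f : NvU.{u} A ⟶ NvU.{u} A) => ULift.down (f.app (op k) (ULift.up σ))) hs
  refine ⟨⟨fun {k} σ => val (sq.lift.app (op k) (ULift.up σ) : RN G k) σ (hσ σ), ?_⟩, ?_⟩
  · intro k l σ α
    have h1 : (sq.lift.app (op l) (ULift.up (σ.res α)) : RN G l) =
      (sq.lift.app (op k) (ULift.up σ) : RN G k).res α := sset_nat sq.lift α.op (ULift.up σ)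
    refine (congrArg ((G.map (endTo σ α).op).app (op l))
      (val_congr h1 (σ.res α) (hσ (σ.res α)) (congrArg (Chain.res · α) (hσ σ)))).trans ?_
    exact val_res (sq.lift.app (op k) (ULift.up σ) : RN G k) σ (hσ σ) α _
  · intro k σ
    have h4 : (sq.lift.app (op k) (ULift.up σ) : RN G k).mapq q = f.sec.app (op k) (ULift.up σ) :=
      congrArg (fun (f : NvU.{u} A ⟶ RNv G') => f.app (op k) (ULift.up σ)) h2
    refine (val_mapq q (sq.lift.app (op k) (ULift.up σ) : RN G k) σ (hσ σ) (hσ σ)).symm.trans ?_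
    exact val_congr h4 σ (hσ σ) rfl

end Pool.Agent.Helper43.FLU.Bi
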