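import Pool.Agent.Helper43.FLU.WLift

/-!
# Project FLQ: homotopy invariance of Bousfield-Kan homotopy limits (any universe)
-/

open CategoryTheory MonoidalCategory CartesianMonoidalCategory Simplicial Opposite Limits
  HomotopicalAlgebra

set_option autoImplicit false

namespace Pool.Agent.Helper43.FLU

open FL (HoEq Htpy sset_id sset_comp sset_nat Chain WS W)
open FLQ (SPU)
open Pool.Agent.Helper45.FL2 (htpy_mk htpy_elim htpy_refl fin2 rel_path horn_edge boundary_const two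
  en en_zero en_one en_zero_two en_one_two two_comp mono_whiskerLeft ι₀_nat ι₁_nat
  exists_fibrewise lift_of_fibrewise)
open Pool.Agent.Helper88.FL (hoEq_comp hoEq_of_comp_left hoEq_of_comp_right hoEq_of_isIso)

universe u

section SSetLevel

variable {X X' G G' K L : SSet.{u}}

/-- currying of maps of simplicial sets -/
noncomputable def curS (f : X ⊗ K ⟶ G) : X ⟶ (ihom K).obj G :=
  MonoidalClosed.curry ((β_ K X).hom ≫ f)

/-- uncurrying of maps of simplicial sets -/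
noncomputable def uncS (g : X ⟶ (ihom K).obj G) : X ⊗ K ⟶ G :=
  (β_ K X).inv ≫ MonoidalClosed.uncurry g

lemma uncS_curS (f : X ⊗ K ⟶ G) : uncS (curS f) = f := by
  simp [uncS, curS]

lemma curS_uncS (g : X ⟶ (ihom K).obj G) : curS (uncS g) = g := by
  simp [uncS, curS]

lemma curS_left (a : X' ⟶ X) (f : X ⊗ K ⟶ G) : curS (a ▷ K ≫ f) = a ≫ curS f := by
  rw [curS, curS, ← MonoidalClosed.curry_natural_left]
  congr 1

lemma curS_right (f : X ⊗ K ⟶ G) (b : G ⟶ G') : curS (f ≫ b) = curS f ≫ (ihom K).map b := by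
  rw [curS, curS, ← MonoidalClosed.curry_natural_right, Category.assoc]

lemma curS_pre (i : K ⟶ L) (f : X ⊗ L ⟶ G) :
    curS (X ◁ i ≫ f) = curS f ≫ (MonoidalClosed.pre i).app G := by
  rw [curS, curS, MonoidalClosed.curry_pre_app]
  congr 1

lemma uncS_left (a : X' ⟶ X) (g : X ⟶ (ihom K).obj G) : uncS (a ≫ g) = a ▷ K ≫ uncS g := by
  conv_lhs => rw [← curS_uncS g, ← curS_left, uncS_curS]

lemma uncS_right (g : X ⟶ (ihom K).obj G) (b : G ⟶ G') :
    uncS (g ≫ (ihom K).map b) = uncS g ≫ b := by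
  conv_lhs => rw [← curS_uncS g, ← curS_right, uncS_curS]

lemma uncS_pre (i : K ⟶ L) (g : X ⟶ (ihom L).obj G) :
    uncS (g ≫ (MonoidalClosed.pre i).app G) = X ◁ i ≫ uncS g := by
  conv_lhs => rw [← curS_uncS g, ← curS_pre, uncS_curS]

end SSetLevel

variable {J : Type} [SmallCategory J]

/-- the power `G^K` -/
noncomputable def pw (G : SPU.{u} J) (K : SSet.{u}) : SPU.{u} J := G ⋙ ihom K

/-- restriction of powers -/
noncomputable def pwPre (G : SPU.{u} J) {K L : SSet.{u}} (i : K ⟶ L) : pw G L ⟶ pw G K :=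
  Functor.whiskerLeft G (MonoidalClosed.pre i)

/-- functoriality of powers -/
noncomputable def pwMap {G G' : SPU.{u} J} (q : G ⟶ G') (K : SSet.{u}) : pw G K ⟶ pw G' K :=
  Functor.whiskerRight q (ihom K)

lemma pwPre_app (G : SPU.{u} J) {K L : SSet.{u}} (i : K ⟶ L) (j : Jᵒᵖ) :
    (pwPre G i).app j = (MonoidalClosed.pre i).app (G.obj j) := rfl

lemma pwMap_app {G G' : SPU.{u} J} (q : G ⟶ G') (K : SSet.{u}) (j : Jᵒᵖ) :
    (pwMap q K).app j = (ihom K).map (q.app j) := rfl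

lemma pw_comm {G G' : SPU.{u} J} (q : G ⟶ G') {K L : SSet.{u}} (i : K ⟶ L) :
    pwPre G i ≫ pwMap q K = pwMap q L ≫ pwPre G' i := by
  ext1
  ext1 j
  exact ((MonoidalClosed.pre i).naturality (q.app j)).symm

/-- currying -/
noncomputable def cur {X G : SPU.{u} J} {K : SSet.{u}} (f : tn X K ⟶ G) : X ⟶ pw G K where
  app j := curS (f.app j : X.obj j ⊗ K ⟶ G.obj j)
  naturality j j' g := by
    have h : X.map g ▷ K ≫ f.app j' = f.app j ≫ G.map g := f.naturality g
    exact (curS_left (X.map g) _).symm.trans ((congrArg curS h).trans (curS_right _ _))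

/-- uncurrying -/
noncomputable def unc {X G : SPU.{u} J} {K : SSet.{u}} (f : X ⟶ pw G K) : tn X K ⟶ G where
  app j := uncS (f.app j : X.obj j ⟶ (ihom K).obj (G.obj j))
  naturality j j' g := by
    have h : X.map g ≫ f.app j' = f.app j ≫ (ihom K).map (G.map g) := f.naturality g
    exact (uncS_left (X.map g) _).symm.trans ((congrArg uncS h).trans (uncS_right _ _))

lemma unc_cur {X G : SPU.{u} J} {K : SSet.{u}} (f : tn X K ⟶ G) : unc (cur f) = f := by
  ext1
  ext1 j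
  exact uncS_curS _

lemma cur_unc {X G : SPU.{u} J} {K : SSet.{u}} (f : X ⟶ pw G K) : cur (unc f) = f := by
  ext1
  ext1 j
  exact curS_uncS _

lemma cur_pre {X G : SPU.{u} J} {K L : SSet.{u}} (i : K ⟶ L) (f : tn X L ⟶ G) :
    cur (tnMap (𝟙 X) i ≫ f) = cur f ≫ pwPre G i := by
  ext1
  ext1 j
  exact curS_pre i _

lemma cur_map {X G G' : SPU.{u} J} {K : SSet.{u}} (f : tn X K ⟶ G) (q : G ⟶ G') :
    cur (f ≫ q) = cur f ≫ pwMap q K := by
  ext1
  ext1 j
  exact curS_right _ _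

lemma unc_pre {X G : SPU.{u} J} {K L : SSet.{u}} (i : K ⟶ L) (f : X ⟶ pw G L) :
    unc (f ≫ pwPre G i) = tnMap (𝟙 X) i ≫ unc f := by
  conv_lhs => rw [← cur_unc f, ← cur_pre, unc_cur]

lemma unc_map {X G G' : SPU.{u} J} {K : SSet.{u}} (f : X ⟶ pw G K) (q : G ⟶ G') :
    unc (f ≫ pwMap q K) = unc f ≫ q := by
  conv_lhs => rw [← cur_unc f, ← cur_map, unc_cur]

section SSetLevel2

variable {X Y G G' : SSet.{u}}

theorem two_ext (f g : X ⊗ (∂Δ[1] : SSet.{u}) ⟶ Y) (h0 : en X 0 ≫ f = en X 0 ≫ g)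
    (h1 : en X 1 ≫ f = en X 1 ≫ g) : f = g := by
  ext m ⟨x, s⟩
  have key : ∀ i : Fin (1 + 1), SSet.stdSimplex.asOrderHom s.1 0 = i →
      ((x, s) : (X ⊗ (∂Δ[1] : SSet.{u})).obj m) = (en X i).app m x := by
    intro i hi
    refine Prod.ext rfl (Subtype.ext ?_)
    refine SSet.stdSimplex.ext _ _ fun j => ?_
    exact (boundary_const s j 0).trans hi
  rcases fin2 (SSet.stdSimplex.asOrderHom s.1 0) with h | h
  · have h2 := key _ h
    have h3 := ConcreteCategory.congr_hom (NatTrans.congr_app h0 m) x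
    rw [h2]
    exact h3
  · have h2 := key _ h
    have h3 := ConcreteCategory.congr_hom (NatTrans.congr_app h1 m) x
    rw [h2]
    exact h3

lemma en_nat (f : X ⟶ Y) (i : Fin (1 + 1)) :
    en X i ≫ f ▷ (∂Δ[1] : SSet.{u}) = f ≫ en Y i := by
  refine CartesianMonoidalCategory.hom_ext _ _ ?_ ?_
  · rw [Category.assoc, Category.assoc, whiskerRight_fst, en, en, lift_fst_assoc, lift_fst,
      Category.id_comp, Category.comp_id]
  · rw [Category.assoc, Category.assoc, whiskerRight_snd, en, en, lift_snd, lift_snd]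
    rfl

/-- evaluation at the vertex `0` -/
noncomputable def ev0 (X : SSet.{u}) : (ihom Δ[1]).obj X ⟶ X := SSet.ι₀ ≫ uncS (𝟙 _)

/-- evaluation at the vertex `1` -/
noncomputable def ev1 (X : SSet.{u}) : (ihom Δ[1]).obj X ⟶ X := SSet.ι₁ ≫ uncS (𝟙 _)

lemma comp_ev0 (g : Y ⟶ (ihom Δ[1]).obj X) : g ≫ ev0 X = SSet.ι₀ ≫ uncS g := by
  rw [ev0, ← Category.assoc, ← ι₀_nat, Category.assoc, ← uncS_left, Category.comp_id]

lemma comp_ev1 (g : Y ⟶ (ihom Δ[1]).obj X) : g ≫ ev1 X = SSet.ι₁ ≫ uncS g := by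
  rw [ev1, ← Category.assoc, ← ι₁_nat, Category.assoc, ← uncS_left, Category.comp_id]

lemma ev0_nat (b : G ⟶ G') : (ihom Δ[1]).map b ≫ ev0 G' = ev0 G ≫ b := by
  rw [comp_ev0, ev0, ← Category.id_comp ((ihom Δ[1]).map b), uncS_right, Category.assoc]

lemma ev1_nat (b : G ⟶ G') : (ihom Δ[1]).map b ≫ ev1 G' = ev1 G ≫ b := by
  rw [comp_ev1, ev1, ← Category.id_comp ((ihom Δ[1]).map b), uncS_right, Category.assoc]

open SSet.modelCategoryQuillen in
/-- a simplicial set with fillers of horns is a Kan complex -/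
theorem kan_of_fill {X : SSet.{u}} (h : ∀ (n : ℕ) (i : Fin (n + 2))
    (t : (Λ[n + 1, i] : SSet.{u}) ⟶ X), ∃ l : Δ[n + 1] ⟶ X, Λ[n + 1, i].ι ≫ l = t) :
    SSet.KanComplex X := by
  refine (isFibrant_iff X).2 ⟨?_⟩
  rw [SSet.modelCategoryQuillen.fibrations_eq]
  intro _ _ _ hf
  simp only [SSet.modelCategoryQuillen.J, MorphismProperty.iSup_iff] at hf
  obtain ⟨n, ⟨i⟩⟩ := hf
  refine ⟨fun {t _} _ => ?_⟩
  obtain ⟨l, hl⟩ := h n i t
  exact ⟨⟨{ l := l, fac_left := hl, fac_right := by subsingleton }⟩⟩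

open SSet.modelCategoryQuillen in
/-- fillers of horns in a Kan complex -/
theorem fill_of_kan {X : SSet.{u}} (hX : SSet.KanComplex X) (n : ℕ) (i : Fin (n + 2))
    (t : (Λ[n + 1, i] : SSet.{u}) ⟶ X) : ∃ l : Δ[n + 1] ⟶ X, Λ[n + 1, i].ι ≫ l = t := by
  have hf : Fibration (terminal.from X) := (isFibrant_iff X).1 hX
  have hl : HasLiftingProperty (Λ[n + 1, i].ι : (Λ[n + 1, i] : SSet.{u}) ⟶ _)
    (terminal.from X) := SSet.anodyneExtensions.horn_ι i _ ((fibration_iff _).1 hf)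
  have sq : CommSq t (Λ[n + 1, i].ι : (Λ[n + 1, i] : SSet.{u}) ⟶ _)
    (terminal.from X) (terminal.from _) := ⟨Subsingleton.elim _ _⟩
  exact ⟨sq.lift, sq.fac_left⟩

variable {P : SSet.{u}}

/-- the first projection of the mapping path space is a trivial fibration -/
theorem fst_trivFib {q : G ⟶ G'} {fst' : P ⟶ G} {snd' : P ⟶ (ihom Δ[1]).obj G'}
    (hP : IsPullback fst' snd' q (ev0 G')) (hG' : SSet.KanComplex G') : TrivFib fst' := by
  intro n
  constructor
  intro t b sq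
  obtain ⟨h, -, h0, h1⟩ := rel_path (terminal.from G') (∂Δ[n] : (Δ[n] : SSet.{u}).Subcomplex)
    (terminal.from _) (b ≫ q) (uncS (t ≫ snd')) (Subsingleton.elim _ _) (Subsingleton.elim _ _)
    (by rw [← comp_ev0, Category.assoc, ← hP.w, ← Category.assoc, sq.w, Category.assoc])
  have hw : b ≫ q = curS h ≫ ev0 G' := by rw [comp_ev0, uncS_curS, h0]
  refine ⟨⟨{ l := hP.lift _ _ hw, fac_left := ?_, fac_right := hP.lift_fst _ _ hw }⟩⟩
  apply hP.hom_ext
  · rw [Category.assoc, hP.lift_fst, sq.w]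
  · rw [Category.assoc, hP.lift_snd, ← curS_left, h1, curS_uncS]

open SSet.modelCategoryQuillen in
/-- the second projection of the mapping path space is a Kan fibration -/
theorem snd_kanFib {q : G ⟶ G'} {fst' : P ⟶ G} {snd' : P ⟶ (ihom Δ[1]).obj G'}
    (hP : IsPullback fst' snd' q (ev0 G')) (hG : SSet.KanComplex G) (hG' : SSet.KanComplex G') :
    KanFib (snd' ≫ ev1 G') := by
  intro n i
  constructor
  intro t b sq
  obtain ⟨a, ha⟩ := fill_of_kan hG n i (t ≫ fst')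
  have hl : HasLiftingProperty (Λ[n + 1, i].ι : (Λ[n + 1, i] : SSet.{u}) ⟶ _)
    ((MonoidalClosed.pre (∂Δ[1].ι : (∂Δ[1] : SSet.{u}) ⟶ Δ[1])).app G') :=
    SSet.anodyneExtensions.horn_ι i _ ((fibration_iff _).1 inferInstance)
  have sq2 : CommSq (t ≫ snd') (Λ[n + 1, i].ι : (Λ[n + 1, i] : SSet.{u}) ⟶ _)
      ((MonoidalClosed.pre (∂Δ[1].ι : (∂Δ[1] : SSet.{u}) ⟶ Δ[1])).app G')
      (curS (two (a ≫ q) b)) := ⟨by
    rw [← curS_left, ← curS_uncS ((t ≫ snd') ≫ _), uncS_pre]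
    congr 1
    symm
    apply two_ext
    · rw [← Category.assoc, en_nat, Category.assoc, en_zero_two, ← Category.assoc (en _ 0),
        en_zero, ← comp_ev0, ← Category.assoc, ha, Category.assoc, Category.assoc, hP.w]
    · rw [← Category.assoc, en_nat, Category.assoc, en_one_two, ← Category.assoc (en _ 1),
        en_one, ← comp_ev1, Category.assoc, sq.w]⟩
  have key : uncS (sq2.lift ≫
      (MonoidalClosed.pre (∂Δ[1].ι : (∂Δ[1] : SSet.{u}) ⟶ Δ[1])).app G') =
      two (a ≫ q) b := by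
    rw [sq2.fac_right, uncS_curS]
  rw [uncS_pre] at key
  have hw : a ≫ q = sq2.lift ≫ ev0 G' := by
    rw [comp_ev0, ← en_zero, Category.assoc, key, en_zero_two]
  refine ⟨⟨{ l := hP.lift _ _ hw, fac_left := ?_, fac_right := ?_ }⟩⟩
  · apply hP.hom_ext
    · rw [Category.assoc, hP.lift_fst, ha]
    · rw [Category.assoc, hP.lift_snd, sq2.fac_left]
  · rw [← Category.assoc, hP.lift_snd, comp_ev1, ← en_one, Category.assoc, key, en_one_two]

/-- the mapping path space is a Kan complex -/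
theorem path_kan {q : G ⟶ G'} {fst' : P ⟶ G} {snd' : P ⟶ (ihom Δ[1]).obj G'}
    (hP : IsPullback fst' snd' q (ev0 G')) (hG : SSet.KanComplex G) (hG' : SSet.KanComplex G') :
    SSet.KanComplex P := by
  refine kan_of_fill fun n i t => ?_
  obtain ⟨b, hb⟩ := fill_of_kan hG n i (t ≫ fst')
  have hl := TrivFib.kanFib (fst_trivFib hP hG') n i
  have sq : CommSq t (Λ[n + 1, i].ι : (Λ[n + 1, i] : SSet.{u}) ⟶ _) fst' b := ⟨hb.symm⟩
  exact ⟨sq.lift, sq.fac_left⟩

end SSetLevel2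

/-- lifting against the map of homotopy limits -/
theorem post_lift {G G' P : SPU.{u} J} (q : G ⟶ G') {K L : SSet.{u}} (i : K ⟶ L) (fst : P ⟶ pw G K)
    (snd : P ⟶ pw G' L) (hP : IsPullback fst snd (pwMap q K) (pwPre G' i))
    (π : pw G L ⟶ P) (h1 : π ≫ fst = pwPre G i) (h2 : π ≫ snd = pwMap q L)
    (hπ : ∀ j, TrivFib (π.app j)) : HasLiftingProperty i (Mp.post (WU J) q) := by
  constructor
  intro t b sq
  have h3 : Mp.adj t ≫ q = tnMap (𝟙 (WU J)) i ≫ Mp.adj b := by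
    rw [← Mp.adj_post, ← Mp.adj_comp, sq.w]
  have h4 : cur (Mp.adj t) ≫ pwMap q K = cur (Mp.adj b) ≫ pwPre G' i := by
    rw [← cur_map, h3, cur_pre]
  obtain ⟨g, hg⟩ := W_lift π hπ (hP.lift _ _ h4)
  refine ⟨⟨⟨Mp.adj.symm (unc g), ?_, ?_⟩⟩⟩
  · apply Mp.adj.injective
    rw [Mp.adj_comp, Equiv.apply_symm_apply, ← unc_pre, ← h1, ← Category.assoc, hg,
      hP.lift_fst, unc_cur]
  · apply Mp.adj.injective
    rw [Mp.adj_post, Equiv.apply_symm_apply, ← unc_map, ← h2, ← Category.assoc, hg,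
      hP.lift_snd, unc_cur]

/-- the pullback-hom of a boundary inclusion and a trivial fibration -/
theorem pullbackHom_trivFib {E B : SSet.{u}} {p : E ⟶ B} (hp : TrivFib p) (m : ℕ)
    (sq : MonoidalClosed.internalHom.PullbackObjObj (∂Δ[m].ι : (∂Δ[m] : SSet.{u}) ⟶ Δ[m]) p) :
    TrivFib sq.π := by
  intro n
  rw [← MonoidalClosed.internalHomAdjunction₂.hasLiftingProperty_iff
    (SSet.Subcomplex.unionProd.pushoutObjObj.{u} ∂Δ[m] ∂Δ[n])]
  have h : (MorphismProperty.monomorphisms SSet.{u}).rlp p := by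
    rw [SSet.rlp_monomorphisms]
    rintro _ _ _ ⟨n⟩
    exact hp n
  rw [SSet.Subcomplex.unionProd.pushoutObjObj_ι]
  have hm : Mono (SSet.Subcomplex.ι (SSet.Subcomplex.unionProd.{u} ∂Δ[m] ∂Δ[n])) := by
    infer_instance
  exact h _ hm

theorem Holim_trivFib {G G' : SPU.{u} J} (q : G ⟶ G') (hq : ∀ j, TrivFib (q.app j)) :
    TrivFib (Mp.post (WU J) q) := by
  intro m
  have hP := IsPullback.of_hasPullback (pwMap q (∂Δ[m] : SSet.{u}))
    (pwPre G' (∂Δ[m].ι : (∂Δ[m] : SSet.{u}) ⟶ Δ[m]))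
  have hw := pw_comm q (∂Δ[m].ι : (∂Δ[m] : SSet.{u}) ⟶ Δ[m])
  refine post_lift q _ _ _ hP (hP.lift _ _ hw) (hP.lift_fst _ _ hw) (hP.lift_snd _ _ hw) ?_
  intro j
  have hj := hP.map ((evaluation Jᵒᵖ SSet.{u}).obj j)
  exact pullbackHom_trivFib (hq j) m
    { pt := _
      fst := _
      snd := _
      isPullback := hj
      π := (hP.lift _ _ hw).app j
      π_fst := NatTrans.congr_app (hP.lift_fst _ _ hw) j
      π_snd := NatTrans.congr_app (hP.lift_snd _ _ hw) j }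

open SSet.modelCategoryQuillen in
/-- the restriction of a power of a Kan complex along an anodyne extension -/
theorem pre_trivFib {K L X : SSet.{u}} (i : K ⟶ L) (hi : SSet.anodyneExtensions i)
    (hX : SSet.KanComplex X) : TrivFib ((MonoidalClosed.pre i).app X) := by
  intro n
  rw [← MonoidalCategory.Arrow.PushoutProduct.hasLiftingProperty_mk_isTerminal_iff
    terminalIsTerminal]
  have h := SSet.anodyneExtensions_pushoutObjObjι'
    (Functor.PushoutObjObj.ofHasPushout (curriedTensor SSet.{u}) i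
      (∂Δ[n].ι : (∂Δ[n] : SSet.{u}) ⟶ Δ[n])) hi
  have h2 : Fibration (terminal.from X) := (isFibrant_iff X).1 hX
  exact h _ ((fibration_iff _).1 h2)

theorem Holim_kan {G : SPU.{u} J} (hG : ObjKan G) : SSet.KanComplex (Mp (WU J) G) := by
  refine kan_of_fill fun n i t => ?_
  obtain ⟨g, hg⟩ := W_lift (pwPre G (Λ[n + 1, i].ι : (Λ[n + 1, i] : SSet.{u}) ⟶ _))
    (fun j => pre_trivFib _ (SSet.anodyneExtensions.horn_ι i) (hG j))
    (cur (Mp.adj (t : (Λ[n + 1, i] : SSet.{u}) ⟶ Mp (WU J) G)))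
  refine ⟨Mp.adj.symm (unc g), ?_⟩
  apply Mp.adj.injective
  rw [Mp.adj_comp, Equiv.apply_symm_apply, ← unc_pre, hg, unc_cur]

/-- evaluation at the vertex `0` -/
noncomputable def pev0 (G : SPU.{u} J) : pw G Δ[1] ⟶ G where
  app j := ev0 (G.obj j)
  naturality _ _ g := ev0_nat (G.map g)

/-- evaluation at the vertex `1` -/
noncomputable def pev1 (G : SPU.{u} J) : pw G Δ[1] ⟶ G where
  app j := ev1 (G.obj j)
  naturality _ _ g := ev1_nat (G.map g)

/-- the constant path -/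
noncomputable def pcst {G G' : SPU.{u} J} (q : G ⟶ G') : G ⟶ pw G' Δ[1] :=
  cur (G := G') { app := fun j => CartesianMonoidalCategory.fst (G.obj j) Δ[1] ≫ q.app j
                  naturality := fun j j' g => by
                    have h1 : G.map g ≫ q.app j' = q.app j ≫ G'.map g := q.naturality g
                    change G.map g ▷ Δ[1] ≫ CartesianMonoidalCategory.fst _ _ ≫ q.app j' =
                      (CartesianMonoidalCategory.fst _ _ ≫ q.app j) ≫ G'.map g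
                    rw [CartesianMonoidalCategory.whiskerRight_fst_assoc, h1, Category.assoc] }

lemma pcst_ev0 {G G' : SPU.{u} J} (q : G ⟶ G') : pcst q ≫ pev0 G' = q := by
  ext1
  ext1 j
  change curS (CartesianMonoidalCategory.fst (G.obj j) Δ[1] ≫ q.app j) ≫ ev0 _ = _
  rw [comp_ev0, uncS_curS, SSet.ι₀_fst_assoc]

lemma pcst_ev1 {G G' : SPU.{u} J} (q : G ⟶ G') : pcst q ≫ pev1 G' = q := by
  ext1
  ext1 j
  change curS (CartesianMonoidalCategory.fst (G.obj j) Δ[1] ≫ q.app j) ≫ ev1 _ = _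
  rw [comp_ev1, uncS_curS, SSet.ι₁_fst_assoc]

theorem post_comp (X : SPU.{u} J) {G G' G'' : SPU.{u} J} (p : G ⟶ G') (q : G' ⟶ G'') :
    Mp.post X (p ≫ q) = Mp.post X p ≫ Mp.post X q := rfl

theorem post_id (X : SPU.{u} J) (G : SPU.{u} J) : Mp.post X (𝟙 G) = 𝟙 _ := rfl

theorem Holim_hoEq {G G' : SPU.{u} J} (hG : ObjKan G) (hG' : ObjKan G') (q : G ⟶ G')
    (hq : ObjHoEq q) : HoEq (Mp.post (WU J) q) := by
  obtain ⟨P, p, s, hP⟩ : ∃ (P : SPU.{u} J) (p : P ⟶ G) (s : P ⟶ pw G' Δ[1]),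
      IsPullback p s q (pev0 G') := ⟨_, _, _, IsPullback.of_hasPullback q (pev0 G')⟩
  have hPj : ∀ j, IsPullback (p.app j) (s.app j) (q.app j) (ev0 (G'.obj j)) :=
    fun j => hP.map ((evaluation Jᵒᵖ SSet.{u}).obj j)
  have hw : 𝟙 G ≫ q = pcst q ≫ pev0 G' := by rw [Category.id_comp, pcst_ev0]
  have hKP : ObjKan P := fun j => path_kan (hPj j) (hG j) (hG' j)
  have hp : ∀ j, TrivFib (p.app j) := fun j => fst_trivFib (hPj j) (hG' j)
  obtain ⟨σ, h1, h2⟩ : ∃ σ : G ⟶ P, σ ≫ p = 𝟙 G ∧ σ ≫ s = pcst q :=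
    ⟨hP.lift _ _ hw, hP.lift_fst _ _ hw, hP.lift_snd _ _ hw⟩
  have h3 : σ ≫ s ≫ pev1 G' = q := by rw [← Category.assoc, h2, pcst_ev1]
  have he : ∀ j, TrivFib ((s ≫ pev1 G').app j) := by
    intro j
    have hσ : HoEq (σ.app j) := by
      refine hoEq_of_comp_right (hG j) (hKP j) (hG j) (TrivFib.hoEq (hp j)) ?_
      have h4 : σ.app j ≫ p.app j = 𝟙 _ := NatTrans.congr_app h1 j
      rw [h4]
      exact hoEq_of_isIso _
    have h5 : σ.app j ≫ (s ≫ pev1 G').app j = q.app j := NatTrans.congr_app h3 j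
    refine trivFib_of_hoEq (hKP j) (hG' j) (snd_kanFib (hPj j) (hG j) (hG' j)) ?_
    refine hoEq_of_comp_left (hG j) (hKP j) (hG' j) hσ ?_
    rw [h5]
    exact hq j
  have h6 : HoEq (Mp.post (WU J) σ) := by
    refine hoEq_of_comp_right (Holim_kan hG) (Holim_kan hKP) (Holim_kan hG) (TrivFib.hoEq (Holim_trivFib p hp)) ?_
    rw [← post_comp, h1, post_id]
    exact hoEq_of_isIso _
  rw [← h3, post_comp]
  exact hoEq_comp (Holim_kan hG) (Holim_kan hKP) (Holim_kan hG') h6 (TrivFib.hoEq (Holim_trivFib _ he))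

end Pool.Agent.Helper43.FLU
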