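import Pool.Agent.Helper43.FLU.BiNerve
import Pool.Agent.Helper43.FLU.Holim
import Pool.Agent.Helper41.FL2.RR

/-!
# Project FLQ: the cobar construction is injectively fibrant (any universe)
-/

open CategoryTheory MonoidalCategory Simplicial Opposite HomotopicalAlgebra

set_option autoImplicit false

namespace Pool.Agent.Helper43.FLU

open FL (HoEq Htpy sset_id sset_comp sset_nat Chain WS W BrS)
open FLQ (SPU)
open Helper41FL2 (E2 endTo endTo_comp BrS.mk_congr)
open Bi (Fam)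

universe u

section Hom

variable {K L K' L' : SSet.{u}} {m : SimplexCategory}

/-- Maps `K × Δ[m] ⟶ L`. -/
structure HS1 (K L : SSet.{u}) (m : SimplexCategory) : Type u where
  ev : ∀ (k : SimplexCategoryᵒᵖ) (_ : k.unop ⟶ m) (_ : K.obj k), L.obj k
  nat' : ∀ {k l : SimplexCategoryᵒᵖ} (g : k ⟶ l) (s : k.unop ⟶ m) (x : K.obj k),
      ev l (g.unop ≫ s) (K.map g x) = L.map g (ev k s x)

/-- Constructor. -/
def HS1.mk' (v : ∀ (k : SimplexCategoryᵒᵖ) (_ : k.unop ⟶ m) (_ : K.obj k), L.obj k)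
    (h : ∀ {k l : SimplexCategoryᵒᵖ} (g : k ⟶ l) (s : k.unop ⟶ m) (x : K.obj k),
      v l (g.unop ≫ s) (K.map g x) = L.map g (v k s x)) : HS1 K L m := ⟨v, h⟩

lemma HS1.nat (φ : HS1 K L m) {k l : SimplexCategoryᵒᵖ} (g : k ⟶ l) (s : k.unop ⟶ m)
    (x : K.obj k) : φ.ev l (g.unop ≫ s) (K.map g x) = L.map g (φ.ev k s x) :=
  φ.nat' g s x

lemma HS1.ext {φ ψ : HS1 K L m} (h : ∀ (k : SimplexCategoryᵒᵖ) (s : k.unop ⟶ m) (x : K.obj k),
    φ.ev k s x = ψ.ev k s x) : φ = ψ := by
  obtain ⟨φ, h1⟩ := φ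
  obtain ⟨ψ, h2⟩ := ψ
  obtain rfl : φ = ψ := by
    funext k s x
    exact h k s x
  rfl

/-- The mapping space. -/
def HS (K L : SSet.{u}) : SSet.{u} where
  obj m := HS1 K L m.unop
  map α := ↾ fun φ => ⟨fun k s x => φ.ev k (s ≫ α.unop) x, fun {k l} g s x => by
    refine Eq.trans ?_ (φ.nat g (s ≫ α.unop) x)
    rw [Category.assoc]⟩
  map_id m := by
    refine ConcreteCategory.hom_ext _ _ fun φ => ?_
    refine HS1.ext fun k s x => ?_
    exact congrArg (fun t => HS1.ev φ k t x) (Category.comp_id s)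
  map_comp α β := by
    refine ConcreteCategory.hom_ext _ _ fun φ => ?_
    refine HS1.ext fun k s x => ?_
    exact congrArg (fun t => HS1.ev φ k t x) (Category.assoc s β.unop α.unop).symm

/-- Precomposition. -/
def HSpre (f : K' ⟶ K) (L : SSet.{u}) : HS K L ⟶ HS K' L where
  app m := ↾ fun φ => (⟨fun k s x => HS1.ev φ k s (f.app k x), fun {k l} g s x =>
    (congrArg (HS1.ev φ l (g.unop ≫ s)) (sset_nat f g x)).trans (HS1.nat φ g s _)⟩ :
      HS1 K' L m.unop)
  naturality _ _ _ := rfl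

/-- Postcomposition. -/
def HSpost (K : SSet.{u}) (f : L ⟶ L') : HS K L ⟶ HS K L' where
  app m := ↾ fun φ => (⟨fun k s x => f.app k (HS1.ev φ k s x), fun {k l} g s x =>
    (congrArg (f.app l) (HS1.nat φ g s x)).trans (sset_nat f g _)⟩ : HS1 K L' m.unop)
  naturality _ _ _ := rfl

/-- The universal property of the mapping space. -/
def adjHS {T : SSet.{u}} : (T ⟶ HS K L) ≃ (T ⊗ K ⟶ L) where
  toFun f :=
    { app := fun k => ↾ fun (z : T.obj k × K.obj k) =>
        (f.app k z.1 : HS1 K L k.unop).ev k (𝟙 _) z.2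
      naturality := fun k l α => by
        refine ConcreteCategory.hom_ext _ _ fun (z : T.obj k × K.obj k) => ?_
        show (f.app l (T.map α z.1) : HS1 K L l.unop).ev l (𝟙 _) (K.map α z.2) =
          L.map α ((f.app k z.1 : HS1 K L k.unop).ev k (𝟙 _) z.2)
        rw [sset_nat f α z.1]
        refine Eq.trans ?_ ((f.app k z.1 : HS1 K L k.unop).nat α (𝟙 _) z.2)
        show (f.app k z.1 : HS1 K L k.unop).ev l (𝟙 _ ≫ α.unop) (K.map α z.2) = _
        rw [Category.comp_id, Category.id_comp] }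
  invFun g :=
    { app := fun k => ↾ fun t => (⟨fun l s x => g.app l ((T.map s.op t, x) : T.obj l × K.obj l),
        fun {l l'} α s x => by
          refine Eq.trans ?_ (sset_nat g α ((T.map s.op t, x) : T.obj l × K.obj l))
          refine congrArg (g.app l') (Prod.ext ?_ rfl)
          exact sset_comp T s.op α t⟩ : HS1 K L k.unop)
      naturality := fun k l α => by
        refine ConcreteCategory.hom_ext _ _ fun t => ?_
        refine HS1.ext fun l' s x => ?_
        refine congrArg (g.app l') (Prod.ext ?_ rfl)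
        exact (sset_comp T α s.op t).symm }
  left_inv f := by
    refine NatTrans.ext (funext fun k => ConcreteCategory.hom_ext _ _ fun t => ?_)
    refine HS1.ext fun l s x => ?_
    show (f.app l (T.map s.op t) : HS1 K L l.unop).ev l (𝟙 _) x = _
    rw [sset_nat f s.op t]
    show (f.app k t : HS1 K L k.unop).ev l (𝟙 _ ≫ s) x = _
    rw [Category.id_comp]
  right_inv g := by
    refine NatTrans.ext (funext fun k => ConcreteCategory.hom_ext _ _ fun
      (z : T.obj k × K.obj k) => ?_)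
    refine congrArg (g.app k) (Prod.ext ?_ rfl)
    exact sset_id T z.1

lemma adjHS_comp {T T' : SSet.{u}} (a : T' ⟶ T) (f : T ⟶ HS K L) :
    adjHS (a ≫ f) = a ▷ K ≫ adjHS f := rfl

lemma adjHS_symm_comp {T T' : SSet.{u}} (a : T' ⟶ T) (g : T ⊗ K ⟶ L) :
    adjHS.symm (a ▷ K ≫ g) = a ≫ adjHS.symm g := by
  apply adjHS.injective
  rw [Equiv.apply_symm_apply, adjHS_comp, Equiv.apply_symm_apply]

/-- The comparison with the internal hom. -/
noncomputable def hsIso (K L : SSet.{u}) : HS K L ≅ (ihom K).obj L where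
  hom := curS (adjHS (𝟙 _))
  inv := adjHS.symm (uncS (𝟙 _))
  hom_inv_id := by
    rw [← adjHS_symm_comp, ← uncS_left, Category.comp_id, uncS_curS, Equiv.symm_apply_apply]
  inv_hom_id := by
    rw [← curS_left, ← adjHS_comp, Category.comp_id, Equiv.apply_symm_apply, curS_uncS]

lemma hsIso_pre (i : K ⟶ K') (L : SSet.{u}) :
    HSpre i L ≫ (hsIso K L).hom = (hsIso K' L).hom ≫ (MonoidalClosed.pre i).app L := by
  show HSpre i L ≫ curS (adjHS (𝟙 _)) = curS (adjHS (𝟙 _)) ≫ _
  rw [← curS_left, ← adjHS_comp, Category.comp_id, ← curS_pre]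
  rfl

open SSet.modelCategoryQuillen in
theorem kanFib_of_fibration {E B : SSet.{u}} {p : E ⟶ B} (hp : Fibration p) : KanFib p :=
  fun _ i => SSet.anodyneExtensions.horn_ι i _ ((fibration_iff _).1 hp)

open SSet.modelCategoryQuillen in
/-- Restriction along a monomorphism which is a weak equivalence. -/
theorem HSpre_trivFib (i : K ⟶ K') [Mono i] (hi : ∀ K : SSet.{u}, SSet.KanComplex K →
    HoEq ((MonoidalClosed.pre i).app K)) {L : SSet.{u}}
    (hL : SSet.KanComplex L) : TrivFib (HSpre i L) := by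
  have h0 : TrivFib ((MonoidalClosed.pre i).app L) := by
    have h1 : SSet.KanComplex ((ihom K).obj L) := inferInstance
    have h2 : SSet.KanComplex ((ihom K').obj L) := inferInstance
    have h3 : Fibration ((MonoidalClosed.pre i).app L) := inferInstance
    exact trivFib_of_hoEq h2 h1 (kanFib_of_fibration h3) (hi L hL)
  intro n
  refine (HasLiftingProperty.iff_of_arrow_iso_right _ (Arrow.isoMk (f := Arrow.mk (HSpre i L))
    (g := Arrow.mk ((MonoidalClosed.pre i).app L)) (hsIso K' L) (hsIso K L) ?_)).2 (h0 n)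
  exact (hsIso_pre i L).symm

end Hom

variable {A : Type} [SmallCategory A]

/-- The diagram `(b, c) ↦ X(b) ^ P(c)`. -/
def HD (P X : SPU.{u} A) : SPU.{u} (A × Aᵒᵖ) where
  obj z := HS (P.obj z.unop.2) (X.obj (op z.unop.1))
  map f := HSpre (P.map f.unop.2) _ ≫ HSpost _ (X.map f.unop.1.op)
  map_id z := by
    refine NatTrans.ext (funext fun m => ?_)
    refine ConcreteCategory.hom_ext _ _ fun φ => ?_
    refine HS1.ext fun k s x => ?_
    refine (sp_id X _).trans ?_
    exact congrArg (HS1.ev φ k s) (sp_id P x)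
  map_comp f g := by
    refine NatTrans.ext (funext fun m => ?_)
    refine ConcreteCategory.hom_ext _ _ fun φ => ?_
    refine HS1.ext fun k s x => ?_
    refine (sp_comp X f.unop.1.op g.unop.1.op _).trans ?_
    exact congrArg (fun t => (X.map g.unop.1.op).app k ((X.map f.unop.1.op).app k
      (HS1.ev φ k s t))) (sp_comp P g.unop.2 f.unop.2 x)

lemma HD_map_ev (P X : SPU.{u} A) {z z' : (A × Aᵒᵖ)ᵒᵖ} (f : z ⟶ z') {m : SimplexCategoryᵒᵖ}
    (φ : HS1 (P.obj z.unop.2) (X.obj (op z.unop.1)) m.unop) (k : SimplexCategoryᵒᵖ)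
    (s : k.unop ⟶ m.unop) (x : (P.obj z'.unop.2).obj k) :
    HS1.ev (((HD P X).map f).app m φ) k s x =
      (X.map f.unop.1.op).app k (HS1.ev φ k s ((P.map f.unop.2).app k x)) := rfl

/-- Restriction along `i : P ⟶ Q`. -/
def HDpre {P Q : SPU.{u} A} (i : P ⟶ Q) (X : SPU.{u} A) : HD Q X ⟶ HD P X where
  app z := HSpre (i.app z.unop.2) _
  naturality z z' f := by
    refine NatTrans.ext (funext fun m => ?_)
    refine ConcreteCategory.hom_ext _ _ fun φ => ?_
    refine HS1.ext fun k s x => ?_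
    show (X.map f.unop.1.op).app k (HS1.ev φ k s
        ((Q.map f.unop.2).app k ((i.app z'.unop.2).app k x))) =
      (X.map f.unop.1.op).app k (HS1.ev φ k s
        ((i.app z.unop.2).app k ((P.map f.unop.2).app k x)))
    exact congrArg (fun t => (X.map f.unop.1.op).app k (HS1.ev φ k s t))
      (hom_nat i f.unop.2 x).symm

lemma HDpre_ev {P Q : SPU.{u} A} (i : P ⟶ Q) (X : SPU.{u} A) (z : (A × Aᵒᵖ)ᵒᵖ) (m : SimplexCategoryᵒᵖ)
    (φ : HS1 (Q.obj z.unop.2) (X.obj (op z.unop.1)) m.unop) (k : SimplexCategoryᵒᵖ)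
    (s : k.unop ⟶ m.unop) (x : (P.obj z.unop.2).obj k) :
    HS1.ev (((HDpre i X).app z).app m φ) k s x = HS1.ev φ k s ((i.app z.unop.2).app k x) := rfl

/-- Trivial cofibrations. -/
def TrivCof {P Q : SPU.{u} A} (i : P ⟶ Q) : Prop :=
  (∀ a, Mono (i.app a)) ∧ ∀ (a : Aᵒᵖ) (K : SSet.{u}), SSet.KanComplex K →
    HoEq ((MonoidalClosed.pre (i.app a)).app K)

/-- Injectively fibrant presheaves. -/
def InjFib (Z : SPU.{u} A) : Prop :=
  ∀ ⦃P Q : SPU.{u} A⦄ (i : P ⟶ Q), TrivCof i → ∀ f : P ⟶ Z, ∃ g : Q ⟶ Z, i ≫ g = f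

theorem HDpre_trivFib {P Q : SPU.{u} A} (i : P ⟶ Q) (hi : TrivCof i) {X : SPU.{u} A}
    (hX : ObjKan X) (z : (A × Aᵒᵖ)ᵒᵖ) : TrivFib ((HDpre i X).app z) := by
  have := hi.1 z.unop.2
  exact HSpre_trivFib (i.app z.unop.2) (hi.2 z.unop.2) (hX _)

/-- A simplex of the cobar construction. -/
structure RS (X : SPU.{u} A) (a : A) (m : SimplexCategory) : Type u where
  app : ∀ (b : Aᵒᵖ) (l : SimplexCategoryᵒᵖ) (_ : l.unop ⟶ m) (_ : BrS a b.unop l.unop),
    (X.obj b).obj l
  left : ∀ {b b' : Aᵒᵖ} (g : b ⟶ b') (l : SimplexCategoryᵒᵖ) (s : l.unop ⟶ m)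
    (w : BrS a b.unop l.unop), app b' l s ⟨w.σ, g.unop ≫ w.u, w.v⟩ = (X.map g).app l (app b l s w)
  right : ∀ (b : Aᵒᵖ) {l l' : SimplexCategoryᵒᵖ} (α : l ⟶ l') (s : l.unop ⟶ m)
    (w : BrS a b.unop l.unop), app b l' (α.unop ≫ s) ⟨w.σ.res α.unop, w.u ≫ w.σ.zeroTo α.unop,
        w.σ.map _ _ (Fin.le_last _) ≫ w.v⟩ = (X.obj b).map α (app b l s w)

lemma RS.ext' {X : SPU.{u} A} {a : A} {m : SimplexCategory} {y y' : RS X a m}
    (h : ∀ (b : Aᵒᵖ) (l : SimplexCategoryᵒᵖ) (s : l.unop ⟶ m) (w : BrS a b.unop l.unop),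
      y.app b l s w = y'.app b l s w) : y = y' := by
  obtain ⟨y, h1, h2⟩ := y
  obtain ⟨y', h1', h2'⟩ := y'
  obtain rfl : y = y' := by
    funext b l s w
    exact h b l s w
  rfl

/-- The cobar construction. -/
def RR (X : SPU.{u} A) : SPU.{u} A where
  obj a :=
    { obj := fun m => RS X a.unop m.unop
      map := fun α => ↾ fun y => ⟨fun b l s w => y.app b l (s ≫ α.unop) w,
        fun g l s w => y.left g l (s ≫ α.unop) w, fun b {l l'} β s w => by
          refine Eq.trans ?_ (y.right b β (s ≫ α.unop) w)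
          rw [Category.assoc]⟩
      map_id := fun m => by
        refine ConcreteCategory.hom_ext _ _ fun y => ?_
        refine RS.ext' fun b l s w => ?_
        exact congrArg (fun t => RS.app y b l t w) (Category.comp_id s)
      map_comp := fun α β => by
        refine ConcreteCategory.hom_ext _ _ fun y => ?_
        refine RS.ext' fun b l s w => ?_
        exact congrArg (fun t => RS.app y b l t w) (Category.assoc s β.unop α.unop).symm }
  map {a a'} g :=
    { app := fun m => ↾ fun (y : RS X a.unop m.unop) =>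
        (⟨fun b l s w => y.app b l s ⟨w.σ, w.u, w.v ≫ g.unop⟩,
        fun h l s w => y.left h l s ⟨w.σ, w.u, w.v ≫ g.unop⟩, fun b {l l'} β s w => by
          refine Eq.trans ?_ (y.right b β s ⟨w.σ, w.u, w.v ≫ g.unop⟩)
          refine congrArg (y.app b l' (β.unop ≫ s)) ?_
          exact congrArg (BrS.mk (w.σ.res β.unop) (w.u ≫ w.σ.zeroTo β.unop))
            (Category.assoc _ _ _)⟩ : RS X a'.unop m.unop)
      naturality := fun _ _ _ => rfl }
  map_id a := by
    refine NatTrans.ext (funext fun m => ConcreteCategory.hom_ext _ _ fun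
      (y : RS X a.unop m.unop) => ?_)
    refine RS.ext' fun b l s w => ?_
    exact congrArg (fun t => RS.app y b l s (BrS.mk w.σ w.u t)) (Category.comp_id w.v)
  map_comp {a a' a''} g h := by
    refine NatTrans.ext (funext fun m => ConcreteCategory.hom_ext _ _ fun
      (y : RS X a.unop m.unop) => ?_)
    refine RS.ext' fun b l s w => ?_
    exact congrArg (fun t => RS.app y b l s (BrS.mk w.σ w.u t))
      (Category.assoc w.v h.unop g.unop).symm

section Convert

variable {P X : SPU.{u} A}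

/-- The value of a simplex of `RR X`. -/
def rv {a : Aᵒᵖ} {k : SimplexCategoryᵒᵖ} (y : ((RR X).obj a).obj k) (b : Aᵒᵖ)
    (l : SimplexCategoryᵒᵖ) (s : l.unop ⟶ k.unop) (w : BrS a.unop b.unop l.unop) :
    (X.obj b).obj l := RS.app y b l s w

lemma rv_ext {a : Aᵒᵖ} {k : SimplexCategoryᵒᵖ} {y y' : ((RR X).obj a).obj k}
    (h : ∀ (b : Aᵒᵖ) (l : SimplexCategoryᵒᵖ) (s : l.unop ⟶ k.unop)
      (w : BrS a.unop b.unop l.unop), rv y b l s w = rv y' b l s w) : y = y' := by
  exact RS.ext' h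

lemma rv_mapk {a : Aᵒᵖ} {k k' : SimplexCategoryᵒᵖ} (y : ((RR X).obj a).obj k)
    (α : k ⟶ k') (b : Aᵒᵖ) (l : SimplexCategoryᵒᵖ) (s : l.unop ⟶ k'.unop)
    (w : BrS a.unop b.unop l.unop) :
    rv (((RR X).obj a).map α y) b l s w = rv y b l (s ≫ α.unop) w := rfl

lemma rv_map {a a' : Aᵒᵖ} {k : SimplexCategoryᵒᵖ} (y : ((RR X).obj a).obj k)
    (g : a ⟶ a') (b : Aᵒᵖ) (l : SimplexCategoryᵒᵖ) (s : l.unop ⟶ k.unop)
    (w : BrS a'.unop b.unop l.unop) :
    rv (((RR X).map g).app k y) b l s w = rv y b l s ⟨w.σ, w.u, w.v ≫ g.unop⟩ := rfl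

lemma rv_left {a : Aᵒᵖ} {k : SimplexCategoryᵒᵖ} (y : ((RR X).obj a).obj k)
    {b b' : Aᵒᵖ} (g : b ⟶ b') (l : SimplexCategoryᵒᵖ) (s : l.unop ⟶ k.unop)
    (w : BrS a.unop b.unop l.unop) :
    rv y b' l s ⟨w.σ, g.unop ≫ w.u, w.v⟩ = (X.map g).app l (rv y b l s w) :=
  RS.left y g l s w

lemma rv_right {a : Aᵒᵖ} {k : SimplexCategoryᵒᵖ} (y : ((RR X).obj a).obj k)
    (b : Aᵒᵖ) {l l' : SimplexCategoryᵒᵖ} (α : l ⟶ l') (s : l.unop ⟶ k.unop)
    (w : BrS a.unop b.unop l.unop) :
    rv y b l' (α.unop ≫ s) ⟨w.σ.res α.unop, w.u ≫ w.σ.zeroTo α.unop,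
        w.σ.map _ _ (Fin.le_last _) ≫ w.v⟩ = (X.obj b).map α (rv y b l s w) :=
  RS.right y b α s w

/-- The family attached to a map into the cobar construction. -/
def famOf (f : P ⟶ RR X) : Fam (HD P X) where
  v {k} σ := HS1.mk' (fun l s x => rv ((f.app (op (σ.obj (Fin.last _)))).app l x) (op (σ.obj 0)) l
      (𝟙 _) ⟨σ.res s, σ.zeroTo s, σ.map _ _ (Fin.le_last _)⟩) (by
    intro l l' g s x
    rw [hom_natk, rv_mapk]
    refine Eq.trans ?_ (rv_right ((f.app (op (σ.obj (Fin.last _)))).app l x) (op (σ.obj 0)) g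
      (𝟙 _) ⟨σ.res s, σ.zeroTo s, σ.map _ _ (Fin.le_last _)⟩)
    have e : 𝟙 l'.unop ≫ g.unop = g.unop ≫ 𝟙 _ := by simp
    rw [e]
    refine congrArg (rv _ _ _ _) ?_
    refine BrS.mk_congr (σ.res (g.unop ≫ s)) ?_ ?_
    · exact (σ.map_comp _ _ _ _ _).symm
    · exact (σ.map_comp _ _ _ _ _).symm)
  nat {k l} σ α := by
    refine HS1.ext fun m s x => ?_
    show (X.map (Quiver.Hom.op (σ.map 0 (α.toOrderHom 0) (Fin.zero_le _)))).app m
        (rv ((f.app (op (σ.obj (α.toOrderHom (Fin.last _))))).app m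
          ((P.map (Quiver.Hom.op (σ.map (α.toOrderHom (Fin.last _)) (Fin.last _)
            (Fin.le_last _)))).app m x)) (op (σ.obj (α.toOrderHom 0))) m (𝟙 _)
          ⟨σ.res (s ≫ α), (σ.res α).zeroTo s, (σ.res α).map _ _ (Fin.le_last _)⟩) =
      rv ((f.app (op (σ.obj (Fin.last _)))).app m x) (op (σ.obj 0)) m
      (𝟙 _) ⟨σ.res (s ≫ α), σ.zeroTo (s ≫ α), σ.map _ _ (Fin.le_last _)⟩
    rw [hom_nat, rv_map, ← rv_left]
    refine congrArg (rv _ _ _ _) ?_
    refine BrS.mk_congr (σ.res (s ≫ α)) ?_ ?_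
    · exact σ.map_comp _ _ _ _ _
    · exact σ.map_comp _ _ _ _ _

lemma famOf_ev (f : P ⟶ RR X) {k : SimplexCategory} (σ : Chain A k)
    (l : SimplexCategoryᵒᵖ) (s : l.unop ⟶ k)
    (x : (P.obj (op (σ.obj (Fin.last _)))).obj l) :
    HS1.ev ((famOf f).v σ) l s x =
      rv ((f.app (op (σ.obj (Fin.last _)))).app l x) (op (σ.obj 0)) l
      (𝟙 _) ⟨σ.res s, σ.zeroTo s, σ.map _ _ (Fin.le_last _)⟩ := rfl

/-- The value of a family. -/
def fv (g : Fam (HD P X)) {k : SimplexCategory} (σ : Chain A k)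
    (l : SimplexCategoryᵒᵖ) (s : l.unop ⟶ k)
    (x : (P.obj (op (σ.obj (Fin.last _)))).obj l) : (X.obj (op (σ.obj 0))).obj l :=
  HS1.ev (g.v σ) l s x

lemma fv_nat (g : Fam (HD P X)) {k : SimplexCategory} (σ : Chain A k)
    {l l' : SimplexCategoryᵒᵖ} (α : l ⟶ l') (s : l.unop ⟶ k)
    (x : (P.obj (op (σ.obj (Fin.last _)))).obj l) :
    fv g σ l' (α.unop ≫ s) ((P.obj _).map α x) = (X.obj _).map α (fv g σ l s x) :=
  HS1.nat (g.v σ) α s x

lemma fv_res (g : Fam (HD P X)) {k k' : SimplexCategory} (σ : Chain A k) (α : k' ⟶ k)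
    (l : SimplexCategoryᵒᵖ) (s : l.unop ⟶ k')
    (x : (P.obj (op (σ.obj (Fin.last _)))).obj l) :
    (X.map (σ.zeroTo α).op).app l (fv g (σ.res α) l s
      ((P.map (Quiver.Hom.op (σ.map (α.toOrderHom (Fin.last _)) (Fin.last _)
            (Fin.le_last _)))).app l x)) = fv g σ l (s ≫ α) x :=
  congrArg (fun t => HS1.ev (K := P.obj (op (σ.obj (Fin.last _))))
    (L := X.obj (op (σ.obj 0))) t l s x) (g.nat σ α)

/-- The map into the cobar construction attached to a family. -/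
def ofFam (g : Fam (HD P X)) : P ⟶ RR X where
  app a :=
    { app := fun k => ↾ fun y =>
        ({ app := fun b l s w => (X.map (Quiver.Hom.op (BrS.u w))).app l (fv g (BrS.σ w) l (𝟙 _)
            ((P.map (Quiver.Hom.op (BrS.v w))).app l ((P.obj a).map s.op y)))
           left := fun {b b'} h l s w => by
            exact sp_comp X (Quiver.Hom.op (BrS.u w)) h _
           right := fun b {l l'} α s w => by
            obtain ⟨σ, u, v⟩ := w
            show (X.map (Quiver.Hom.op (u ≫ σ.zeroTo α.unop))).app l'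
                (fv g (σ.res α.unop) l' (𝟙 _)
                  ((P.map (Quiver.Hom.op (σ.map (α.unop.toOrderHom (Fin.last _)) (Fin.last _)
                    (Fin.le_last _) ≫ v))).app l'
                    ((P.obj a).map (s.op ≫ α) y))) =
              (X.obj b).map α ((X.map (Quiver.Hom.op u)).app l (fv g σ l (𝟙 _)
                ((P.map (Quiver.Hom.op v)).app l ((P.obj a).map s.op y))))
            refine (congrArg _ (congrArg (fv g (σ.res α.unop) l' (𝟙 _))
              (sp_comp P v.op (σ.map (α.unop.toOrderHom (Fin.last _)) (Fin.last _)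
                    (Fin.le_last _)).op _))).trans ?_
            refine (sp_comp X (σ.zeroTo α.unop).op u.op _).trans ?_
            refine Eq.trans ?_ (sp_nat X u.op α _)
            refine congrArg ((X.map u.op).app l') ?_
            refine (fv_res g σ α.unop l' (𝟙 _) _).trans ?_
            refine Eq.trans ?_ (fv_nat g σ α (𝟙 _) _)
            refine congrArg₂ (fv g σ l') ?_ ?_
            · simp
            · rw [sset_comp]
              exact sp_nat P v.op α _ } : RS X a.unop k.unop)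
      naturality := fun k k' α => by
        refine ConcreteCategory.hom_ext _ _ fun y => ?_
        refine rv_ext fun b l s w => ?_
        exact congrArg (fun t => (X.map (Quiver.Hom.op (BrS.u w))).app l (fv g (BrS.σ w) l (𝟙 _)
            ((P.map (Quiver.Hom.op (BrS.v w))).app l t))) (sset_comp (P.obj a) α s.op y).symm }
  naturality a a' h := by
    refine NatTrans.ext (funext fun k => ?_)
    refine ConcreteCategory.hom_ext _ _ fun y => ?_
    refine rv_ext fun b l s w => ?_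
    show (X.map (Quiver.Hom.op (BrS.u w))).app l (fv g (BrS.σ w) l (𝟙 _)
            ((P.map (Quiver.Hom.op (BrS.v w))).app l
              ((P.obj a').map s.op ((P.map h).app k y)))) =
      (X.map (Quiver.Hom.op (BrS.u w))).app l (fv g (BrS.σ w) l (𝟙 _)
            ((P.map (Quiver.Hom.op (BrS.v w ≫ h.unop))).app l
              ((P.obj a).map s.op y)))
    refine congrArg (fun t => (X.map (Quiver.Hom.op (BrS.u w))).app l
      (fv g (BrS.σ w) l (𝟙 _) t)) ?_
    rw [← sp_nat]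
    exact (sp_comp P h (BrS.v w).op _).symm

lemma ofFam_rv (g : Fam (HD P X)) {a : Aᵒᵖ} {k : SimplexCategoryᵒᵖ} (y : (P.obj a).obj k)
    (b : Aᵒᵖ) (l : SimplexCategoryᵒᵖ) (s : l.unop ⟶ k.unop) (w : BrS a.unop b.unop l.unop) :
    rv (((ofFam g).app a).app k y) b l s w = (X.map (Quiver.Hom.op w.u)).app l
      (fv g w.σ l (𝟙 _) ((P.map (Quiver.Hom.op w.v)).app l ((P.obj a).map s.op y))) := rfl

end Convert

theorem RR_ext {P Q X : SPU.{u} A} (hX : ObjKan X) (i : P ⟶ Q) (hi : TrivCof i)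
    (f : P ⟶ RR X) : ∃ g : Q ⟶ RR X, i ≫ g = f := by
  obtain ⟨g, hg⟩ := Fam.lift (HDpre i X) (HDpre_trivFib i hi hX) (famOf f)
  refine ⟨ofFam g, ?_⟩
  refine NatTrans.ext (funext fun a => NatTrans.ext (funext fun k => ?_))
  refine ConcreteCategory.hom_ext _ _ fun y => ?_
  refine rv_ext fun b l s w => ?_
  obtain ⟨σ, u, v⟩ := w
  show rv (((ofFam g).app a).app k ((i.app a).app k y)) b l s ⟨σ, u, v⟩ =
    rv ((f.app a).app k y) b l s ⟨σ, u, v⟩
  rw [ofFam_rv]
  show (X.map (Quiver.Hom.op u)).app l (fv g σ l (𝟙 _) ((Q.map (Quiver.Hom.op v)).app l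
    ((Q.obj a).map s.op ((i.app a).app k y)))) = _
  rw [← hom_natk, ← hom_nat]
  have h1 := congrArg (fun t => HS1.ev (K := P.obj (op (σ.obj (Fin.last _))))
    (L := X.obj (op (σ.obj 0))) t l (𝟙 _) ((P.map (Quiver.Hom.op v)).app l
      ((P.obj a).map s.op y))) (hg σ)
  have h2 : fv g σ l (𝟙 _) ((i.app (op (σ.obj (Fin.last _)))).app l
      ((P.map (Quiver.Hom.op v)).app l ((P.obj a).map s.op y))) =
      rv ((f.app (op (σ.obj (Fin.last _)))).app l ((P.map (Quiver.Hom.op v)).app l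
      ((P.obj a).map s.op y))) (op (σ.obj 0)) l
      (𝟙 _) ⟨σ.res (𝟙 _), σ.zeroTo (𝟙 _), σ.map _ _ (Fin.le_last _)⟩ := h1
  rw [h2, hom_nat, rv_map, ← rv_left, hom_natk, rv_mapk]
  have e : 𝟙 l.unop ≫ s.op.unop = s := Category.id_comp s
  rw [e]
  refine congrArg (rv _ _ _ _) ?_
  refine BrS.mk_congr σ ?_ ?_
  · exact (congrArg (u ≫ ·) (σ.map_id 0)).trans (Category.comp_id u)
  · exact (congrArg (· ≫ v) (σ.map_id _)).trans (Category.id_comp v)

theorem RR_injFib {X : SPU.{u} A} (hX : ObjKan X) : InjFib (RR X) :=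
  fun _ _ i hi f => RR_ext hX i hi f


end Pool.Agent.Helper43.FLU
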