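import Pool.Agent.Helper43.FLU.Up

/-!
# Project FLQ: presheaves of large simplicial sets on `Cat_n` (internal form)
-/

open CategoryTheory MonoidalCategory Opposite

set_option autoImplicit false

namespace Pool.Agent.Helper43.FLU

open FL (SP HoEq Htpy sset_id sset_comp sset_nat Chain WS W BrS Th CatN IsCat Hoco HS coneS diag_comp Gn)
open FLQ (SPU)

universe u

section Presheaves

/-- A presheaf on the `∞`-category `Cat_n`: a simplicial functor from the opposite of the
simplicial category `CatN n` to simplicial sets. -/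
structure PSh (n : ℕ) : Type 2 where
  obj : CatN n → SSet.{1}
  act : ∀ {C C' : CatN n} {k : SimplexCategoryᵒᵖ}, FL.MpS C.1 C'.1 k.unop → (obj C').obj k →
    (obj C).obj k
  act_nat : ∀ {C C' : CatN n} {k l : SimplexCategoryᵒᵖ} (α : k ⟶ l) (φ : FL.MpS C.1 C'.1 k.unop)
    (x : (obj C').obj k), act (φ.res α.unop) ((obj C').map α x) = (obj C).map α (act φ x)
  act_id : ∀ {C : CatN n} {k : SimplexCategoryᵒᵖ} (x : (obj C).obj k),
    act (FL.MpS.ofHom k.unop (𝟙 C.1)) x = x
  act_comp : ∀ {C C' C'' : CatN n} {k : SimplexCategoryᵒᵖ} (φ : FL.MpS C.1 C'.1 k.unop)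
    (ψ : FL.MpS C'.1 C''.1 k.unop) (x : (obj C'').obj k), act (φ.comp ψ) x = act φ (act ψ x)

variable {n : ℕ}

/-- Objectwise Kan presheaves. -/
def PSh.Kan (F : PSh n) : Prop := ∀ C, SSet.KanComplex (F.obj C)

/-- Morphisms of presheaves on `Cat_n`. -/
structure PSh.Hom (F G : PSh n) : Type 1 where
  app (C : CatN n) : F.obj C ⟶ G.obj C
  act : ∀ {C C' : CatN n} {k : SimplexCategoryᵒᵖ} (φ : FL.MpS C.1 C'.1 k.unop)
    (x : (F.obj C').obj k), (app C).app k (F.act φ x) = G.act φ ((app C').app k x)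

/-- `F ≃ G`, for presheaves on `Cat_n` such that `G` is injectively fibrant: there is an
objectwise equivalence `F ⟶ G`. -/
def PSh.Equiv (F G : PSh n) : Prop := ∃ φ : PSh.Hom F G, ∀ C, HoEq (φ.app C)

/-- The restriction of a presheaf on `Cat_n` along a diagram in `Cat_n`. -/
noncomputable def PSh.along (F : PSh n) {J : Type} [SmallCategory J] (p : J ⥤ SP (Th n))
    (hp : ∀ j, IsCat n (p.obj j)) : SPU.{1} J where
  obj j := F.obj ⟨p.obj j.unop, hp _⟩
  map {j j'} f :=
    { app := fun k => ↾ fun x =>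
        F.act (C := ⟨_, hp j'.unop⟩) (C' := ⟨_, hp j.unop⟩) (FL.MpS.ofHom k.unop (p.map f.unop)) x
      naturality := fun k l α => by
        ext x
        exact F.act_nat (C := ⟨_, hp j'.unop⟩) (C' := ⟨_, hp j.unop⟩) α
          (FL.MpS.ofHom k.unop (p.map f.unop)) x }
  map_id j := by
    ext k x
    refine Eq.trans ?_ (F.act_id (C := ⟨_, hp j.unop⟩) x)
    show F.act (C := ⟨_, hp j.unop⟩) (C' := ⟨_, hp j.unop⟩)
      (FL.MpS.ofHom k.unop (p.map (𝟙 j.unop))) x = _
    rw [p.map_id]
  map_comp {j j' j''} f g := by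
    ext k x
    refine Eq.trans ?_ (F.act_comp (C := ⟨_, hp j''.unop⟩) (C' := ⟨_, hp j'.unop⟩)
      (C'' := ⟨_, hp j.unop⟩) (FL.MpS.ofHom k.unop (p.map g.unop))
      (FL.MpS.ofHom k.unop (p.map f.unop)) x)
    refine congrArg (fun t => F.act (C := ⟨_, hp j''.unop⟩) (C' := ⟨_, hp j.unop⟩) t x) ?_
    show FL.MpS.ofHom k.unop (p.map (g.unop ≫ f.unop)) = _
    rw [p.map_comp]
    rfl

/-- The comparison map `F(C) ⟶ holim_j F(p(j))` of a coherent cocone `hocolim p ⟶ C` in
`Cat_n`. -/
noncomputable def PSh.compare (F : PSh n) {J : Type} [SmallCategory J] (p : J ⥤ SP (Th n))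
    (hp : ∀ j, IsCat n (p.obj j)) {C : SP (Th n)} (hC : IsCat n C) (Λ : Hoco p ⟶ C) :
    F.obj ⟨C, hC⟩ ⟶ Mp (WU J) (F.along p hp) where
  app k := ↾ fun x =>
    { app := fun j l s w => F.act (C := ⟨_, hp j.unop⟩) (C' := ⟨_, hC⟩) (coneS Λ (ULift.down w))
        ((F.obj ⟨C, hC⟩).map s.op x)
      nat_left := fun {j j'} f l s w => by
        refine Eq.trans ?_ (F.act_comp (C := ⟨_, hp j'.unop⟩) (C' := ⟨_, hp j.unop⟩)
          (C'' := ⟨_, hC⟩) (FL.MpS.ofHom l.unop (p.map f.unop)) (coneS Λ (ULift.down w)) _)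
        refine congrArg (fun t => F.act (C := ⟨_, hp j'.unop⟩) (C' := ⟨_, hC⟩) t _) ?_
        refine FL.MpS.ext ?_
        funext a m s' y
        refine congrArg ((Λ.app a).app m) (congrArg (HS.mk (Chain.res (WS.σ w.down) s')) ?_)
        refine Eq.trans ?_ (diag_comp p f.unop (WS.u w.down ≫ Chain.zeroTo (WS.σ w.down) s') y)
        exact congrArg (fun f => ((p.map f).app a).app m y)
          (Category.assoc f.unop (WS.u w.down) (Chain.zeroTo (WS.σ w.down) s'))
      nat_right := fun j l m g s w => by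
        refine Eq.trans ?_ (F.act_nat (C := ⟨_, hp j.unop⟩) (C' := ⟨_, hC⟩) g (coneS Λ (ULift.down w)) _)
        refine congrArg₂ (F.act (C := ⟨_, hp j.unop⟩) (C' := ⟨_, hC⟩)) ?_ ?_
        · refine FL.MpS.ext ?_
          funext a r s' y
          refine congrArg ((Λ.app a).app r)
            (congrArg (HS.mk (Chain.res (WS.σ w.down) (s' ≫ g.unop))) ?_)
          refine congrArg (fun f => ((p.map f).app a).app r y) ?_
          refine (Category.assoc (WS.u w.down) (Chain.zeroTo (WS.σ w.down) g.unop) _).trans ?_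
          exact congrArg (WS.u w.down ≫ ·) ((WS.σ w.down).map_comp _ _ _ _ _)
        · exact sset_comp _ _ _ _ }
  naturality k k' α := by
    ext x
    refine MpS.ext ?_
    funext j l s w
    exact congrArg _ (sset_comp _ α s.op x).symm

/-- A presheaf on `Cat_n` satisfies gaunt descent if it sends (the opposites of) gaunt colimit
diagrams to limit diagrams. -/
def PSh.GauntDescent (F : PSh n) : Prop :=
  ∀ (J : Type) [SmallCategory J] (p : J ⥤ SP (Th n)) (C : SP (Th n)) (Λ : Hoco p ⟶ C)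
    (h : FL.IsGaunt p Λ), HoEq (F.compare p h.cat_obj h.cat_pt Λ)

/-- A presheaf of small simplicial sets as a presheaf of large simplicial sets. -/
def upPSh (G : FL.PSh n) : PSh n where
  obj C := SSet.uliftFunctor.{1, 0}.obj (G.obj C)
  act φ x := ULift.up (G.act φ (ULift.down x))
  act_nat α φ x := congrArg ULift.up (G.act_nat α φ (ULift.down x))
  act_id x := congrArg ULift.up (G.act_id (ULift.down x))
  act_comp φ ψ x := congrArg ULift.up (G.act_comp φ ψ (ULift.down x))

end Presheaves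

end Pool.Agent.Helper43.FLU
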