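import Pool.Agent.Helper43.FLU.Pre
import Pool.Agent.Helper91.FL.GauntFinal
import Pool.Agent.Helper72.FL.RKE

/-!
# Project FLQ: invariance of gaunt descent, comparison with small presheaves
-/

open CategoryTheory MonoidalCategory Opposite

set_option autoImplicit false

namespace Pool.Agent.Helper43.FLU

open FL (SP HoEq Htpy sset_id sset_comp sset_nat Chain WS W BrS Th CatN IsCat Hoco HS coneS diag_comp Gn)
open FLQ (SPU)
open Pool.Agent.Helper88.FL (hoEq_comp hoEq_of_comp_left hoEq_of_comp_right hoEq_of_isIso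
  hoEq_of_arrow_iso hoEq_ulift_iff)

universe u

variable {n : ℕ}

/-- The map of diagrams induced by a morphism of presheaves on `Cat_n`. -/
noncomputable def alongMap {F G : PSh n} (φ : PSh.Hom F G) {J : Type} [SmallCategory J]
    (p : J ⥤ SP (Th n)) (hp : ∀ j, IsCat n (p.obj j)) : F.along p hp ⟶ G.along p hp where
  app j := φ.app ⟨p.obj j.unop, hp _⟩
  naturality {j j'} f := by
    ext k x
    exact φ.act (C := ⟨_, hp j'.unop⟩) (C' := ⟨_, hp j.unop⟩)
      (FL.MpS.ofHom k.unop (p.map f.unop)) x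

theorem compare_square {F G : PSh n} (φ : PSh.Hom F G) {J : Type} [SmallCategory J]
    (p : J ⥤ SP (Th n)) (hp : ∀ j, IsCat n (p.obj j)) {C : SP (Th n)} (hC : IsCat n C)
    (Λ : Hoco p ⟶ C) :
    F.compare p hp hC Λ ≫ Mp.post (WU J) (alongMap φ p hp) =
      φ.app ⟨C, hC⟩ ≫ G.compare p hp hC Λ := by
  ext k x
  refine MpS.ext ?_
  funext j l s w
  refine (φ.act (C := ⟨_, hp j.unop⟩) (C' := ⟨_, hC⟩) (coneS Λ w.down) _).trans ?_
  exact congrArg (G.act (C := ⟨_, hp j.unop⟩) (C' := ⟨_, hC⟩) (coneS Λ w.down))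
    (sset_nat (φ.app ⟨C, hC⟩) s.op x)

theorem compare_hoEq_of_equiv {F G : PSh n} (hF : F.Kan) (hG : G.Kan) (φ : PSh.Hom F G)
    (hφ : ∀ C, HoEq (φ.app C)) {J : Type} [SmallCategory J]
    (p : J ⥤ SP (Th n)) (hp : ∀ j, IsCat n (p.obj j)) {C : SP (Th n)} (hC : IsCat n C)
    (Λ : Hoco p ⟶ C) (h : HoEq (G.compare p hp hC Λ)) : HoEq (F.compare p hp hC Λ) := by
  have hK1 : ObjKan (F.along p hp) := fun j => hF _
  have hK2 : ObjKan (G.along p hp) := fun j => hG _
  have h1 : HoEq (φ.app ⟨C, hC⟩ ≫ G.compare p hp hC Λ) :=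
    hoEq_comp (hF _) (hG _) (Holim_kan hK2) (hφ _) h
  rw [← compare_square] at h1
  refine hoEq_of_comp_right (hF _) (Holim_kan hK1) (Holim_kan hK2) ?_ h1
  exact Holim_hoEq hK1 hK2 (alongMap φ p hp) (fun j => hφ _)

section Up

variable {J : Type} [SmallCategory J]

/-- Homotopy limits of small diagrams. -/
def mpUp (G : SP J) : Mp (WU J) (upP G) ≅ SSet.uliftFunctor.{1, 0}.obj (FL.Mp (W J) G) where
  hom :=
    { app := fun m => ↾ fun (φ : MpS (WU J) (upP G) m.unop) => ULift.up
        ({ app := fun j k s w => (φ.app j k s (ULift.up w) : ULift.{1} _).down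
           nat_left := fun f k s w => congrArg ULift.down (φ.nat_left f k s (ULift.up w))
           nat_right := fun a {_ _} g s w =>
            congrArg ULift.down (φ.nat_right a g s (ULift.up w)) } : FL.MpS (W J) G m.unop)
      naturality := fun _ _ _ => rfl }
  inv :=
    { app := fun m => ↾ fun (φ : ULift.{1} (FL.MpS (W J) G m.unop)) =>
        ({ app := fun j k s w => ULift.up (φ.down.app j k s (ULift.down w))
           nat_left := fun f k s w =>
            congrArg ULift.up (φ.down.nat_left f k s (ULift.down w))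
           nat_right := fun a {_ _} g s w =>
            congrArg ULift.up (φ.down.nat_right a g s (ULift.down w)) } :
          MpS (WU J) (upP G) m.unop)
      naturality := fun _ _ _ => rfl }
  hom_inv_id := rfl
  inv_hom_id := rfl

theorem compare_up_iff (G : FL.PSh n) (p : J ⥤ SP (Th n)) (hp : ∀ j, IsCat n (p.obj j))
    {C : SP (Th n)} (hC : IsCat n C) (Λ : Hoco p ⟶ C) :
    HoEq ((upPSh G).compare p hp hC Λ) ↔ HoEq (G.compare p hp hC Λ) := by
  rw [← hoEq_ulift_iff]
  constructor
  · intro h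
    exact hoEq_of_arrow_iso (Iso.refl _) (mpUp (G.along p hp)) rfl h
  · intro h
    exact hoEq_of_arrow_iso (Iso.refl _) (mpUp (G.along p hp)).symm rfl h

end Up

end Pool.Agent.Helper43.FLU
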