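import Pool.Agent.Helper45.FL.Triv
import Pool.Agent.Helper88.FL.Htpy

/-!
# Project FLQ: trivial fibrations of simplicial sets in an arbitrary universe
-/

open CategoryTheory MonoidalCategory CartesianMonoidalCategory Simplicial Opposite
  HomotopicalAlgebra Limits

set_option autoImplicit false

namespace Pool.Agent.Helper43.FLU

open FL SSet SSet.modelCategoryQuillen
open Pool.Agent.Helper45.FL2 (htpy_mk htpy_elim htpy_refl fin2 rel_path horn_edge boundary_const two
  en en_zero en_one en_zero_two en_one_two two_comp mono_whiskerLeft ι₀_nat ι₁_nat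
  exists_fibrewise lift_of_fibrewise)

universe u

/-- Trivial fibrations of simplicial sets. -/
def TrivFib {E B : SSet.{u}} (p : E ⟶ B) : Prop :=
  ∀ n : ℕ, HasLiftingProperty (∂Δ[n].ι : (∂Δ[n] : SSet.{u}) ⟶ Δ[n]) p

/-- Kan fibrations of simplicial sets. -/
abbrev KanFib {E B : SSet.{u}} (p : E ⟶ B) : Prop :=
  ∀ (n : ℕ) (i : Fin (n + 2)), HasLiftingProperty (Λ[n + 1, i].ι : (Λ[n + 1, i] : SSet.{u}) ⟶ _) p

theorem TrivFib.lift {E B : SSet.{u}} {p : E ⟶ B} (hp : TrivFib p) {K L : SSet.{u}} (i : K ⟶ L)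
    [Mono i] : HasLiftingProperty i p := by
  have h1 : I.{u}.rlp p := by
    rintro _ _ _ ⟨n⟩
    exact hp n
  rw [← rlp_monomorphisms] at h1
  exact h1 i (MorphismProperty.monomorphisms.infer_property _)

theorem TrivFib.hoEq {E B : SSet.{u}} {p : E ⟶ B} (hp : TrivFib p) : HoEq p := by
  have h1 := TrivFib.lift hp (⊥ : B.Subcomplex).ι
  have sq : CommSq (Subcomplex.isInitialBot.to E) (⊥ : B.Subcomplex).ι p (𝟙 B) :=
    ⟨Subcomplex.isInitialBot.hom_ext _ _⟩
  have hm := mono_whiskerLeft E (∂Δ[1] : (Δ[1] : SSet.{u}).Subcomplex).ι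
  have h2 := TrivFib.lift hp (E ◁ (∂Δ[1] : (Δ[1] : SSet.{u}).Subcomplex).ι)
  have sq' : CommSq (two (p ≫ sq.lift) (𝟙 E)) (E ◁ (∂Δ[1] : (Δ[1] : SSet.{u}).Subcomplex).ι) p
      (fst _ _ ≫ p) := ⟨by
    rw [two_comp _ _ p p (by rw [Category.assoc, sq.fac_right, Category.comp_id])
      (Category.id_comp _), whiskerLeft_fst_assoc]⟩
  refine ⟨sq.lift, htpy_mk sq'.lift ?_ ?_, ?_⟩
  · rw [← en_zero, Category.assoc, sq'.fac_left, en_zero_two]
  · rw [← en_one, Category.assoc, sq'.fac_left, en_one_two]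
  · rw [sq.fac_right]
    exact htpy_refl _

theorem TrivFib.kanFib {E B : SSet.{u}} {p : E ⟶ B} (hp : TrivFib p) : KanFib p :=
  fun _ _ => TrivFib.lift hp _

theorem fibration_of_kanFib {E B : SSet.{u}} {p : E ⟶ B} (hp : KanFib p) : Fibration p := by
  rw [SSet.modelCategoryQuillen.fibration_iff]
  rintro _ _ _ h
  simp only [J, MorphismProperty.iSup_iff] at h
  obtain ⟨n, ⟨i⟩⟩ := h
  exact hp n i

theorem trivFib_of_hoEq {E B : SSet.{u}} {p : E ⟶ B} (hE : SSet.KanComplex E)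
    (_ : SSet.KanComplex B) (hp : KanFib p) (h : HoEq p) : TrivFib p := by
  have := fibration_of_kanFib hp
  obtain ⟨s, H, hs, H0, H1, Hp⟩ := exists_fibrewise h
  exact fun n => lift_of_fibrewise hs H0 H1 Hp _

end Pool.Agent.Helper43.FLU
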