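import Pool.Agent.Helper43.FLU.HomD

/-!
# Project FLQ: small presheaves as presheaves of large simplicial sets
-/

open CategoryTheory MonoidalCategory Opposite

set_option autoImplicit false

namespace Pool.Agent.Helper43.FLU

open FL (HoEq Htpy sset_id sset_comp sset_nat Chain WS W BrS)
open FLQ (SPU)

universe u

section Kan

/-- The compatibility condition for horns, elementwise. -/
def Compat {X : SSet.{u}} : {n : ℕ} → {i : Fin (n + 2)} →
    (∀ j : Fin (n + 2), j ≠ i → X.obj (op (SimplexCategory.mk n))) → Prop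
  | 0, _, _ => True
  | n + 1, i, x => ∀ (j k : Fin (n + 3)) (hj : j ≠ i) (hk : k ≠ i) (hjk : j < k),
      X.map (SimplexCategory.δ (k.pred (Fin.ne_zero_of_lt hjk))).op (x j hj) =
        X.map (SimplexCategory.δ (j.castPred (Fin.ne_last_of_lt hjk))).op (x k hk)

lemma compat_iff {X : SSet.{u}} {n : ℕ} {i : Fin (n + 2)}
    (x : ∀ j : Fin (n + 2), j ≠ i → X.obj (op (SimplexCategory.mk n))) :
    Compat x ↔ SSet.horn.IsCompatible (X := X) (i := i)
      (fun j hj => SSet.yonedaEquiv.symm (x j hj)) := by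
  obtain _ | n := n
  · exact Iff.rfl
  · rw [SSet.horn.isCompatible_iff]
    refine forall_congr' fun j => forall_congr' fun k => forall_congr' fun hj =>
      forall_congr' fun hk => forall_congr' fun hjk => ?_
    have e : ∀ (a : Fin (n + 2)) (y : X.obj (op (SimplexCategory.mk (n + 1)))),
        SSet.stdSimplex.δ a ≫ (SSet.yonedaEquiv.symm y : _ ⟶ X) =
          SSet.yonedaEquiv.symm (X.map (SimplexCategory.δ a).op y) := fun a y =>
      SSet.yonedaEquiv_symm_naturality_left (SimplexCategory.δ a) y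
    rw [e, e]
    exact (SSet.yonedaEquiv.symm.injective.eq_iff).symm

/-- The Kan condition, elementwise. -/
theorem kan_iff_elt {X : SSet.{u}} : SSet.KanComplex X ↔
    ∀ (n : ℕ) (i : Fin (n + 2)) (x : ∀ j : Fin (n + 2), j ≠ i → X.obj (op (SimplexCategory.mk n))), Compat x →
      ∃ y : X.obj (op (SimplexCategory.mk (n + 1))), ∀ (j : Fin (n + 2)) (hj : j ≠ i),
        X.map (SimplexCategory.δ j).op y = x j hj := by
  rw [SSet.KanComplex.iff]
  have e : ∀ (n : ℕ) (a : Fin (n + 2)) (y : X.obj (op (SimplexCategory.mk (n + 1)))),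
      SSet.stdSimplex.δ a ≫ (SSet.yonedaEquiv.symm y : _ ⟶ X) =
        SSet.yonedaEquiv.symm (X.map (SimplexCategory.δ a).op y) := fun n a y =>
    SSet.yonedaEquiv_symm_naturality_left (SimplexCategory.δ a) y
  constructor
  · intro h n i x hx
    obtain ⟨φ, hφ⟩ := h _ ((compat_iff x).1 hx)
    obtain ⟨y, rfl⟩ := SSet.yonedaEquiv.symm.surjective φ
    refine ⟨y, fun j hj => ?_⟩
    have h1 := hφ j hj
    rw [e] at h1
    exact SSet.yonedaEquiv.symm.injective h1
  · intro h n i f hf
    have h0 : (fun (j : Fin (n + 2)) (hj : j ≠ i) =>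
        SSet.yonedaEquiv.symm (SSet.yonedaEquiv (f j hj))) = f := by
      funext j hj
      exact Equiv.symm_apply_apply _ _
    obtain ⟨y, hy⟩ := h n i (fun j hj => SSet.yonedaEquiv (f j hj))
      ((compat_iff _).2 (by rw [h0]; exact hf))
    refine ⟨SSet.yonedaEquiv.symm y, fun j hj => ?_⟩
    rw [e, hy, Equiv.symm_apply_apply]

/-- The lift of a Kan complex. -/
theorem kan_up {K : SSet.{0}} (hK : SSet.KanComplex K) :
    SSet.KanComplex (SSet.uliftFunctor.{1, 0}.obj K) := by
  rw [kan_iff_elt]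
  intro n i x hx
  obtain ⟨y, hy⟩ := kan_iff_elt.1 hK n i (fun j hj => (x j hj : ULift.{1} _).down) (by
    obtain _ | n := n
    · trivial
    · intro j k hj hk hjk
      exact congrArg ULift.down (hx j k hj hk hjk))
  refine ⟨ULift.up y, fun j hj => ?_⟩
  exact congrArg ULift.up (hy j hj)

end Kan

section Inj

variable {A : Type} [SmallCategory A]

/-- A small presheaf as a presheaf of large simplicial sets. -/
abbrev upP (Z : FL.SP A) : SPU.{1} A := Z ⋙ SSet.uliftFunctor.{1, 0}

/-- Functoriality. -/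
abbrev upPm {Z Z' : FL.SP A} (f : Z ⟶ Z') : upP Z ⟶ upP Z' :=
  Functor.whiskerRight f SSet.uliftFunctor.{1, 0}

theorem objKan_up {Z : FL.SP A} (hZ : FL.ObjKan Z) : ObjKan (upP Z) := fun a => kan_up (hZ a)

/-- From the small to the large cobar construction. -/
def toRR (Z : FL.SP A) : upP ((FL.RR A).obj Z) ⟶ RR (upP Z) where
  app a :=
    { app := fun m => ↾ fun (y : ULift.{1} ((((FL.RR A).obj Z).obj a).obj m)) =>
        (⟨fun b l s w => ULift.up (Helper41FL2.rv (a := a) (k := m) y.down b l s w),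
          fun g l s w => congrArg ULift.up (Helper41FL2.rv_left (a := a) (k := m) y.down g l s w),
          fun b {l l'} α s w => congrArg ULift.up
            (Helper41FL2.rv_right (a := a) (k := m) y.down b α s w)⟩ :
          RS (upP Z) a.unop m.unop)
      naturality := fun _ _ _ => rfl }
  naturality _ _ _ := rfl

/-- From the large to the small cobar construction. -/
def ofRR (Z : FL.SP A) : RR (upP Z) ⟶ upP ((FL.RR A).obj Z) where
  app a :=
    { app := fun m => ↾ fun (y : RS (upP Z) a.unop m.unop) =>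
        ULift.up ({ app := fun b l s w => (y.app b l s w : ULift.{1} _).down
                    nat_left := fun g l s w => congrArg ULift.down (y.left g l s w)
                    nat_right := fun b {l l'} α s w => congrArg ULift.down (y.right b α s w) } :
          FL.MpS (FL.Bro a.unop) Z m.unop)
      naturality := fun _ _ _ => rfl }
  naturality _ _ _ := rfl

theorem toRR_ofRR (Z : FL.SP A) : toRR Z ≫ ofRR Z = 𝟙 _ := rfl

/-- Injectively fibrant small presheaves are injectively fibrant as presheaves of large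
simplicial sets. -/
theorem injFib_up {Z : FL.SP A} (hZ : FL.InjFib Z) : InjFib (upP Z) := by
  have hK : FL.ObjKan Z :=
    Pool.Agent.Helper46.FLb.InjFib.objKan (fun X {_} hZ => Pool.Agent.Helper83.FL4.Mp_kan X hZ) hZ
  obtain ⟨r, hr⟩ := hZ _ (Helper41FL2.RR_trivCof hK) (𝟙 Z)
  intro P Q i hi f
  obtain ⟨g, hg⟩ := RR_ext (objKan_up hK) i hi (f ≫ upPm ((FL.RR A).η Z) ≫ toRR Z)
  refine ⟨g ≫ ofRR Z ≫ upPm r, ?_⟩
  have h1 : upPm ((FL.RR A).η Z) ≫ upPm r = 𝟙 (upP Z) := by
    refine (Functor.whiskerRight_comp ((FL.RR A).η Z) r SSet.uliftFunctor.{1, 0}).symm.trans ?_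
    rw [hr]
    rfl
  calc i ≫ g ≫ ofRR Z ≫ upPm r = (i ≫ g) ≫ ofRR Z ≫ upPm r := (Category.assoc _ _ _).symm
    _ = (f ≫ upPm ((FL.RR A).η Z) ≫ toRR Z) ≫ ofRR Z ≫ upPm r := by rw [hg]
    _ = f ≫ upPm ((FL.RR A).η Z) ≫ (toRR Z ≫ ofRR Z) ≫ upPm r := by
        simp only [Category.assoc]
    _ = f ≫ upPm ((FL.RR A).η Z) ≫ upPm r := by rw [toRR_ofRR, Category.id_comp]
    _ = f := by rw [h1, Category.comp_id]

end Inj

end Pool.Agent.Helper43.FLU
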