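import Pool.Agent.Helper43.FLU.Base

/-!
# Project FLQ: the Bousfield-Kan weight lifts against objectwise trivial fibrations
-/

open CategoryTheory MonoidalCategory Simplicial Opposite

set_option autoImplicit false

namespace Pool.Agent.Helper43.FLU

open FL (HoEq Htpy sset_id sset_comp sset_nat Chain WS W)
open FLQ (SPU)

universe u

lemma yo_app {B : SSet.{u}} {n : ℕ} (b : Δ[n] ⟶ B) (l : SimplexCategory) (α : l ⟶ ⦋n⦌) :
    b.app (op l) (SSet.stdSimplex.objEquiv.symm α) = B.map α.op (SSet.yonedaEquiv b) := by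
  obtain ⟨y, rfl⟩ := SSet.yonedaEquiv.symm.surjective b
  rw [Equiv.apply_symm_apply]
  rfl

/-- The boundary filling property of `p`, elementwise. -/
def BdFill {E B : SSet.{u}} (p : E ⟶ B) (n : ℕ) : Prop :=
  ∀ (e : ∀ (l : SimplexCategory) (α : l ⟶ ⦋n⦌), ¬ Function.Surjective α.toOrderHom →
      E.obj (op l))
    (_ : ∀ (l l' : SimplexCategory) (α : l ⟶ ⦋n⦌) (β : l' ⟶ l)
      (h : ¬ Function.Surjective α.toOrderHom)
      (h' : ¬ Function.Surjective (β ≫ α).toOrderHom), E.map β.op (e l α h) = e l' (β ≫ α) h')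
    (y : B.obj (op ⦋n⦌))
    (_ : ∀ (l : SimplexCategory) (α : l ⟶ ⦋n⦌) (h : ¬ Function.Surjective α.toOrderHom),
      p.app (op l) (e l α h) = B.map α.op y),
    ∃ x : E.obj (op ⦋n⦌), p.app _ x = y ∧
      ∀ (l : SimplexCategory) (α : l ⟶ ⦋n⦌) (h : ¬ Function.Surjective α.toOrderHom),
        E.map α.op x = e l α h

theorem bdFill_of_lift {E B : SSet.{u}} {p : E ⟶ B} {n : ℕ}
    (hp : HasLiftingProperty (∂Δ[n].ι : (∂Δ[n] : SSet.{u}) ⟶ Δ[n]) p) : BdFill p n := by
  intro e he y hy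
  let t : (∂Δ[n] : SSet.{u}) ⟶ E :=
    { app := fun m => ↾ fun (s : (∂Δ[n] : SSet.{u}).obj m) =>
        e m.unop (SSet.stdSimplex.objEquiv s.1) s.2
      naturality := fun m m' γ => by
        ext s
        exact (he m.unop m'.unop (SSet.stdSimplex.objEquiv s.1) γ.unop s.2 _).symm }
  let b : Δ[n] ⟶ B := SSet.yonedaEquiv.symm y
  have sq : CommSq t (∂Δ[n].ι : (∂Δ[n] : SSet.{u}) ⟶ Δ[n]) p b := ⟨by
    ext m s
    exact hy m.unop (SSet.stdSimplex.objEquiv s.1) s.2⟩
  refine ⟨SSet.yonedaEquiv sq.lift, ?_, ?_⟩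
  · have h := congrArg SSet.yonedaEquiv sq.fac_right
    exact h.trans (Equiv.apply_symm_apply _ _)
  · intro l α h
    have h1 := congrArg (fun f : (∂Δ[n] : SSet.{u}) ⟶ E =>
      f.app (op l) ⟨SSet.stdSimplex.objEquiv.symm α, h⟩) sq.fac_left
    exact (yo_app sq.lift l α).symm.trans h1

theorem lift_of_bdFill {E B : SSet.{u}} {p : E ⟶ B} {n : ℕ} (hp : BdFill p n) :
    HasLiftingProperty (∂Δ[n].ι : (∂Δ[n] : SSet.{u}) ⟶ Δ[n]) p := by
  refine ⟨fun {t b} sq => ?_⟩
  obtain ⟨x, hx1, hx2⟩ := hp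
    (fun l α h => t.app (op l) ⟨SSet.stdSimplex.objEquiv.symm α, h⟩)
    (fun l l' α β h h' => (sset_nat t β.op _).symm)
    (SSet.yonedaEquiv b)
    (fun l α h => by
      have h1 := congrArg (fun f : (∂Δ[n] : SSet.{u}) ⟶ B =>
        f.app (op l) ⟨SSet.stdSimplex.objEquiv.symm α, h⟩) sq.w
      exact h1.trans (yo_app b l α))
  refine ⟨⟨⟨SSet.yonedaEquiv.symm x, ?_, ?_⟩⟩⟩
  · ext m s
    exact hx2 m.unop (SSet.stdSimplex.objEquiv s.1) s.2
  · rw [SSet.yonedaEquiv_symm_comp, hx1, Equiv.symm_apply_apply]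

variable {J : Type} [SmallCategory J]

/-- Functoriality of a diagram along the first-vertex maps of a chain. -/
lemma chain_zeroTo_comp {k l m : SimplexCategory} (σ : Chain J k) (α : l ⟶ k) (β : m ⟶ l) :
    σ.zeroTo α ≫ (σ.res α).zeroTo β = σ.zeroTo (β ≫ α) :=
  σ.map_comp _ _ _ _ _

lemma chain_zeroTo_id {k : SimplexCategory} (σ : Chain J k) :
    σ.zeroTo (𝟙 k) = 𝟙 _ := σ.map_id _

/-- A `k`-simplex of the relative nerve of `G`. -/
structure RN (G : SPU.{u} J) (k : SimplexCategory) : Type u where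
  σ : Chain J k
  g : ∀ (l : SimplexCategory) (α : l ⟶ k), (G.obj (op ((σ.res α).obj 0))).obj (op l)
  nat : ∀ {l l' : SimplexCategory} (α : l ⟶ k) (β : l' ⟶ l),
    (G.map ((σ.res α).zeroTo β).op).app (op l') (g l' (β ≫ α)) =
      (G.obj (op ((σ.res α).obj 0))).map β.op (g l α)

lemma RN.ext_of {G : SPU.{u} J} {k : SimplexCategory} {z z' : RN G k} (h : z.σ = z'.σ)
    (h' : HEq z.g z'.g) : z = z' := by
  cases z
  cases z'
  cases h
  cases h'
  rfl

/-- Restriction. -/
def RN.res {G : SPU.{u} J} {k k' : SimplexCategory} (z : RN G k) (γ : k' ⟶ k) : RN G k' where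
  σ := z.σ.res γ
  g l α := z.g l (α ≫ γ)
  nat α β := z.nat (α ≫ γ) β

lemma RN.g_id_comp {G : SPU.{u} J} {k l : SimplexCategory} (z : RN G k) (α : l ⟶ k) :
    z.g l (𝟙 l ≫ α) = z.g l α := eq_of_heq (congr_arg_heq (z.g l) (Category.id_comp α))

lemma RN.g_comp_id {G : SPU.{u} J} {k l : SimplexCategory} (z : RN G k) (α : l ⟶ k) :
    z.g l (α ≫ 𝟙 k) = z.g l α := eq_of_heq (congr_arg_heq (z.g l) (Category.comp_id α))

lemma RN.res_id {G : SPU.{u} J} {k : SimplexCategory} (z : RN G k) : z.res (𝟙 k) = z := by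
  refine RN.ext_of rfl (heq_of_eq ?_)
  funext l α
  exact z.g_comp_id α

/-- The relative nerve. -/
def RNv (G : SPU.{u} J) : SSet.{u} where
  obj k := RN G k.unop
  map α := ↾ fun z => z.res α.unop
  map_id _ := by
    ext z
    exact z.res_id
  map_comp _ _ := rfl

/-- Functoriality. -/
def RN.mapq {G G' : SPU.{u} J} (q : G ⟶ G') {k : SimplexCategory} (z : RN G k) : RN G' k where
  σ := z.σ
  g l α := (q.app _).app _ (z.g l α)
  nat {l l'} α β := by
    refine (hom_nat q _ _).symm.trans ?_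
    refine (congrArg ((q.app _).app (op l')) (z.nat α β)).trans ?_
    exact hom_natk q β.op _

/-- Functoriality. -/
def RNv.mapq {G G' : SPU.{u} J} (q : G ⟶ G') : RNv G ⟶ RNv G' where
  app k := ↾ fun (z : RN G k.unop) => RN.mapq q z
  naturality _ _ _ := rfl

/-- The value at the identity. -/
def val {G : SPU.{u} J} {k : SimplexCategory} (z : RN G k) (τ : Chain J k) (h : z.σ = τ) :
    (G.obj (op (τ.obj 0))).obj (op k) := by
  subst h
  exact z.g k (𝟙 k)

lemma val_res_self {G : SPU.{u} J} {k l : SimplexCategory} (z : RN G k) (α : l ⟶ k)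
    (h : (z.res α).σ = z.σ.res α) : val (z.res α) (z.σ.res α) h = z.g l α :=
  z.g_id_comp α

lemma val_res {G : SPU.{u} J} {k l : SimplexCategory} (z : RN G k) (τ : Chain J k) (h : z.σ = τ)
    (β : l ⟶ k) (h' : (z.res β).σ = τ.res β) :
    (G.map (τ.zeroTo β).op).app (op l) (val (z.res β) (τ.res β) h') =
      (G.obj (op (τ.obj 0))).map β.op (val z τ h) := by
  subst h
  refine Eq.trans ?_ (z.nat (𝟙 k) β)
  refine congrArg ((G.map (z.σ.zeroTo β).op).app (op l)) ?_
  refine (val_res_self z β h').trans ?_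
  exact (z.g_comp_id β).symm

lemma val_mapq {G G' : SPU.{u} J} (q : G ⟶ G') {k : SimplexCategory} (z : RN G k) (τ : Chain J k)
    (h : z.σ = τ) (h' : (z.mapq q).σ = τ) :
    val (z.mapq q) τ h' = (q.app (op (τ.obj 0))).app (op k) (val z τ h) := by
  subst h
  rfl

lemma RN.ext' {G : SPU.{u} J} {k : SimplexCategory} {z z' : RN G k} (h : z.σ = z'.σ)
    (h' : ∀ (l : SimplexCategory) (α : l ⟶ k) (h1 : (z.res α).σ = z'.σ.res α),
      val (z.res α) (z'.σ.res α) h1 = z'.g l α) : z = z' := by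
  obtain ⟨σ, g, n⟩ := z
  obtain ⟨σ', g', n'⟩ := z'
  obtain rfl : σ = σ' := h
  refine RN.ext_of rfl (heq_of_eq ?_)
  funext l α
  exact (RN.g_id_comp (RN.mk σ g n) α).symm.trans (h' l α rfl)

lemma val_congr {G : SPU.{u} J} {k : SimplexCategory} {z z' : RN G k} (hz : z = z') (τ : Chain J k)
    (h : z.σ = τ) (h' : z'.σ = τ) : val z τ h = val z' τ h' := by
  subst hz
  rfl

lemma RN.ext'' {G : SPU.{u} J} {k : SimplexCategory} {z z' : RN G k} (τ : Chain J k)
    (h : z.σ = τ) (h' : z'.σ = τ)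
    (H : ∀ (l : SimplexCategory) (α : l ⟶ k) (h1 : (z.res α).σ = τ.res α)
      (h2 : (z'.res α).σ = τ.res α),
      val (z.res α) (τ.res α) h1 = val (z'.res α) (τ.res α) h2) : z = z' := by
  subst h'
  exact RN.ext' h fun l α h1 => (H l α h1 rfl).trans (val_res_self z' α rfl)

lemma map_zeroTo_comp (G : SPU.{u} J) {k l m : SimplexCategory} (σ : Chain J k) (α : l ⟶ k)
    (β : m ⟶ l) (o : SimplexCategoryᵒᵖ)
    (x : (G.obj (op ((σ.res (β ≫ α)).obj 0))).obj o) :
    (G.map (σ.zeroTo α).op).app o ((G.map ((σ.res α).zeroTo β).op).app o x) =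
      (G.map (σ.zeroTo (β ≫ α)).op).app o x := by
  refine (sp_comp G _ _ x).symm.trans ?_
  exact congrArg (fun f => (G.map (Quiver.Hom.op f)).app o x) (chain_zeroTo_comp σ α β)

lemma map_back (G : SPU.{u} J) {k : SimplexCategory} (σ : Chain J k) (i j : Fin (k.len + 1))
    (hij : i ≤ j) (hji : j ≤ i) (o : SimplexCategoryᵒᵖ) (x : (G.obj (op (σ.obj j))).obj o) :
    (G.map (σ.map j i hji).op).app o ((G.map (σ.map i j hij).op).app o x) = x := by
  refine (sp_comp G _ _ x).symm.trans ?_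
  refine (congrArg (fun f => (G.map (Quiver.Hom.op f)).app o x)
    ((σ.map_comp j i j hji hij).trans (σ.map_id j))).trans ?_
  exact sp_id G x

lemma surj_zero {l k : SimplexCategory} (α : l ⟶ k) (h : Function.Surjective α.toOrderHom) :
    α.toOrderHom 0 ≤ 0 := by
  obtain ⟨i, hi⟩ := h 0
  rw [← hi]
  exact α.toOrderHom.monotone (Fin.zero_le _)

theorem rn_bdFill {G G' : SPU.{u} J} (q : G ⟶ G') (hq : ∀ j, TrivFib (q.app j)) (n : ℕ) :
    BdFill (RNv.mapq q) n := by
  classical
  intro (e : ∀ (l : SimplexCategory) (α : l ⟶ ⦋n⦌), ¬ Function.Surjective α.toOrderHom → RN G l)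
    (he : ∀ (l l' : SimplexCategory) (α : l ⟶ ⦋n⦌) (β : l' ⟶ l)
      (h : ¬ Function.Surjective α.toOrderHom)
      (h' : ¬ Function.Surjective (β ≫ α).toOrderHom), (e l α h).res β = e l' (β ≫ α) h')
    (z' : RN G' ⦋n⦌)
    (hz' : ∀ (l : SimplexCategory) (α : l ⟶ ⦋n⦌) (h : ¬ Function.Surjective α.toOrderHom),
      (e l α h).mapq q = z'.res α)
  have hσ : ∀ (l : SimplexCategory) (α : l ⟶ ⦋n⦌) (h : ¬ Function.Surjective α.toOrderHom),
      (e l α h).σ = z'.σ.res α := fun l α h => congrArg RN.σ (hz' l α h)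
  let v : ∀ (l : SimplexCategory) (α : l ⟶ ⦋n⦌), ¬ Function.Surjective α.toOrderHom →
      (G.obj (op ((z'.σ.res α).obj 0))).obj (op l) :=
    fun l α h => val (e l α h) (z'.σ.res α) (hσ l α h)
  have hcomp : ∀ {l l' : SimplexCategory} (α : l ⟶ ⦋n⦌) (β : l' ⟶ l),
      ¬ Function.Surjective α.toOrderHom → ¬ Function.Surjective (β ≫ α).toOrderHom := by
    intro l l' α β h h'
    exact h (Function.Surjective.of_comp (g := β.toOrderHom) h')
  have hv_nat : ∀ {l l' : SimplexCategory} (α : l ⟶ ⦋n⦌) (β : l' ⟶ l)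
      (h : ¬ Function.Surjective α.toOrderHom) (h' : ¬ Function.Surjective (β ≫ α).toOrderHom),
      (G.map ((z'.σ.res α).zeroTo β).op).app (op l') (v l' (β ≫ α) h') =
        (G.obj (op ((z'.σ.res α).obj 0))).map β.op (v l α h) := by
    intro l l' α β h h'
    have h1 : ((e l α h).res β).σ = (z'.σ.res α).res β := congrArg (Chain.res · β) (hσ l α h)
    refine Eq.trans ?_ (val_res (e l α h) (z'.σ.res α) (hσ l α h) β h1)
    exact congrArg ((G.map ((z'.σ.res α).zeroTo β).op).app (op l'))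
      (val_congr (he l l' α β h h').symm _ _ _)
  have hv_q : ∀ {l : SimplexCategory} (α : l ⟶ ⦋n⦌) (h : ¬ Function.Surjective α.toOrderHom),
      (q.app _).app (op l) (v l α h) = z'.g l α := by
    intro l α h
    refine (val_mapq q (e l α h) (z'.σ.res α) (hσ l α h) (hσ l α h)).symm.trans ?_
    refine (val_congr (hz' l α h) (z'.σ.res α) _ rfl).trans ?_
    exact val_res_self z' α rfl
  obtain ⟨x, hx1, hx2⟩ := bdFill_of_lift (hq (op (z'.σ.obj 0)) n)
    (fun l α h => (G.map (z'.σ.zeroTo α).op).app (op l) (v l α h))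
    (by
      intro l l' α β h h'
      refine (sp_nat G (z'.σ.zeroTo α).op β.op (v l α h)).symm.trans ?_
      refine (congrArg ((G.map (z'.σ.zeroTo α).op).app (op l')) (hv_nat α β h h').symm).trans ?_
      exact map_zeroTo_comp G z'.σ α β _ _)
    (z'.g ⦋n⦌ (𝟙 _))
    (by
      intro l α h
      refine (hom_nat q (z'.σ.zeroTo α).op (v l α h)).trans ?_
      refine (congrArg ((G'.map (z'.σ.zeroTo α).op).app (op l))
        ((hv_q α h).trans (z'.g_comp_id α).symm)).trans ?_
      exact z'.nat (𝟙 _) α)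
  let g : ∀ (l : SimplexCategory) (α : l ⟶ ⦋n⦌), (G.obj (op ((z'.σ.res α).obj 0))).obj (op l) :=
    fun l α => if h : Function.Surjective α.toOrderHom then
      (G.map (z'.σ.map (α.toOrderHom 0) 0 (surj_zero α h)).op).app (op l)
        ((G.obj (op (z'.σ.obj 0))).map α.op x)
    else v l α h
  have hg1 : ∀ {l : SimplexCategory} (α : l ⟶ ⦋n⦌) (h : ¬ Function.Surjective α.toOrderHom),
      g l α = v l α h := fun α h => dif_neg h
  have hg2 : ∀ {l : SimplexCategory} (α : l ⟶ ⦋n⦌) (h : Function.Surjective α.toOrderHom),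
      g l α = (G.map (z'.σ.map (α.toOrderHom 0) 0 (surj_zero α h)).op).app (op l)
        ((G.obj (op (z'.σ.obj 0))).map α.op x) := fun α h => dif_pos h
  have key : ∀ {l : SimplexCategory} (α : l ⟶ ⦋n⦌),
      (G.map (z'.σ.zeroTo α).op).app (op l) (g l α) = (G.obj (op (z'.σ.obj 0))).map α.op x := by
    intro l α
    by_cases h : Function.Surjective α.toOrderHom
    · rw [hg2 α h]
      exact map_back G z'.σ (α.toOrderHom 0) 0 (surj_zero α h) (Fin.zero_le _) (op l) _
    · rw [hg1 α h]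
      exact (hx2 l α h).symm
  have inj : ∀ {l : SimplexCategory} (α : l ⟶ ⦋n⦌) (_ : Function.Surjective α.toOrderHom)
      (G₀ : SPU.{u} J) (o : SimplexCategoryᵒᵖ) (y y' : (G₀.obj (op ((z'.σ.res α).obj 0))).obj o),
      (G₀.map (z'.σ.zeroTo α).op).app o y = (G₀.map (z'.σ.zeroTo α).op).app o y' → y = y' := by
    intro l α h G₀ o y y' hyy
    have h1 := congrArg
      ((G₀.map (z'.σ.map (α.toOrderHom 0) 0 (surj_zero α h)).op).app o) hyy
    have h2 := map_back G₀ z'.σ 0 (α.toOrderHom 0) (Fin.zero_le _) (surj_zero α h) o y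
    have h3 := map_back G₀ z'.σ 0 (α.toOrderHom 0) (Fin.zero_le _) (surj_zero α h) o y'
    exact h2.symm.trans (h1.trans h3)
  have hnat : ∀ {l l' : SimplexCategory} (α : l ⟶ ⦋n⦌) (β : l' ⟶ l),
      (G.map ((z'.σ.res α).zeroTo β).op).app (op l') (g l' (β ≫ α)) =
        (G.obj (op ((z'.σ.res α).obj 0))).map β.op (g l α) := by
    intro l l' α β
    by_cases h : Function.Surjective α.toOrderHom
    · apply inj α h
      refine (map_zeroTo_comp G z'.σ α β _ _).trans ?_
      refine (key (β ≫ α)).trans ?_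
      refine (sset_comp _ α.op β.op x).trans ?_
      refine (congrArg ((G.obj (op (z'.σ.obj 0))).map β.op) (key α).symm).trans ?_
      exact (sp_nat G (z'.σ.zeroTo α).op β.op (g l α)).symm
    · rw [hg1 α h, hg1 (β ≫ α) (hcomp α β h)]
      exact hv_nat α β h _
  refine ⟨(⟨z'.σ, g, hnat⟩ : RN G ⦋n⦌), ?_, ?_⟩
  · refine RN.ext_of rfl (heq_of_eq ?_)
    funext l α
    change (q.app _).app (op l) (g l α) = z'.g l α
    by_cases h : Function.Surjective α.toOrderHom
    · apply inj α h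
      refine (hom_nat q (z'.σ.zeroTo α).op (g l α)).symm.trans ?_
      refine (congrArg ((q.app _).app (op l)) (key α)).trans ?_
      refine (hom_natk q α.op x).trans ?_
      refine (congrArg ((G'.obj (op (z'.σ.obj 0))).map α.op) hx1).trans ?_
      refine (z'.nat (𝟙 _) α).symm.trans ?_
      exact congrArg ((G'.map (z'.σ.zeroTo α).op).app (op l)) (z'.g_comp_id α)
    · rw [hg1 α h]
      exact hv_q α h
  · intro l α h
    refine RN.ext'' (z'.σ.res α) rfl (hσ l α h) fun l' β h1 h2 => ?_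
    refine (val_res_self (RN.res (⟨z'.σ, g, hnat⟩ : RN G ⦋n⦌) α) β rfl).trans ?_
    change g l' (β ≫ α) = _
    rw [hg1 (β ≫ α) (hcomp α β h)]
    exact val_congr (he l l' α β h _).symm _ _ _

theorem rnv_trivFib {G G' : SPU.{u} J} (q : G ⟶ G') (hq : ∀ j, TrivFib (q.app j)) :
    TrivFib (RNv.mapq q) := fun n => lift_of_bdFill (rn_bdFill q hq n)

/-- The weight of homotopy limits. -/
abbrev WU (J : Type) [SmallCategory J] : SPU.{u} J := W J ⋙ SSet.uliftFunctor.{u, 0}

/-- The nerve. -/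
abbrev NvU (J : Type) [SmallCategory J] : SSet.{u} := SSet.uliftFunctor.{u, 0}.obj (FL.Nv J)

/-- The projection of the relative nerve. -/
def RNv.proj (G : SPU.{u} J) : RNv G ⟶ NvU J where
  app k := ↾ fun (z : RN G k.unop) => ULift.up z.σ
  naturality _ _ _ := rfl

/-- The section of the relative nerve attached to a map from the weight. -/
def secOf {G : SPU.{u} J} (f : WU J ⟶ G) : NvU J ⟶ RNv G where
  app k := ↾ fun (σ : ULift.{u} (Chain J k.unop)) =>
    (⟨σ.down, fun l α => (f.app (op ((σ.down.res α).obj 0))).app (op l)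
        (ULift.up (⟨σ.down.res α, 𝟙 _⟩ : WS _ l)), by
      intro l l' α β
      refine (hom_nat f ((σ.down.res α).zeroTo β).op
        (a := op (((σ.down.res α).res β).obj 0))
        (ULift.up (⟨(σ.down.res α).res β, 𝟙 _⟩ : WS _ l'))).symm.trans ?_
      refine Eq.trans ?_ (hom_natk f β.op (a := op ((σ.down.res α).obj 0))
        (ULift.up (⟨σ.down.res α, 𝟙 _⟩ : WS _ l)))
      refine congrArg ((f.app (op ((σ.down.res α).obj 0))).app (op l')) ?_
      refine congrArg ULift.up ?_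
      exact congrArg (WS.mk ((σ.down.res α).res β))
        ((Category.comp_id _).trans (Category.id_comp _).symm)⟩ : RN G k.unop)
  naturality k l α := by
    ext σ
    rfl

/-- The value of a section. -/
lemma sec_σ {G : SPU.{u} J} {s : NvU J ⟶ RNv G} (hs : s ≫ RNv.proj G = 𝟙 _)
    {k : SimplexCategoryᵒᵖ} (σ : Chain J k.unop) :
    (s.app k (ULift.up σ) : RN G k.unop).σ = σ :=
  congrArg (fun f : NvU.{u} J ⟶ NvU.{u} J => ULift.down (f.app k (ULift.up σ))) hs

/-- The map from the weight attached to a section of the relative nerve. -/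
def ofSec {G : SPU.{u} J} (s : NvU J ⟶ RNv G) (hs : s ≫ RNv.proj G = 𝟙 _) : WU J ⟶ G where
  app j :=
    { app := fun k => ↾ fun (w : ULift.{u} (WS j.unop k.unop)) =>
        (G.map w.down.u.op).app k (val (s.app k (ULift.up w.down.σ) : RN G k.unop) w.down.σ
          (sec_σ hs w.down.σ))
      naturality := fun k l α => by
        refine ConcreteCategory.hom_ext _ _ fun (w : ULift.{u} (WS j.unop k.unop)) => ?_
        obtain ⟨w⟩ := w
        have h := sec_σ hs w.σ
        have h' := sec_σ hs (k := l) (w.σ.res α.unop)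
        have h1 : (s.app l (ULift.up (w.σ.res α.unop)) : RN G l.unop) =
          (s.app k (ULift.up w.σ) : RN G k.unop).res α.unop := sset_nat s α (ULift.up w.σ)
        show (G.map (w.u ≫ w.σ.zeroTo α.unop).op).app l
          (val (s.app l (ULift.up (w.σ.res α.unop)) : RN G l.unop) (w.σ.res α.unop) h') =
          (G.obj j).map α ((G.map w.u.op).app k
            (val (s.app k (ULift.up w.σ) : RN G k.unop) w.σ h))
        refine (sp_comp G (w.σ.zeroTo α.unop).op w.u.op _).trans ?_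
        refine Eq.trans ?_ (sp_nat G w.u.op α _)
        refine congrArg ((G.map w.u.op).app l) ?_
        refine (congrArg ((G.map (w.σ.zeroTo α.unop).op).app l)
          (val_congr h1 (w.σ.res α.unop) h' (congrArg (Chain.res · α.unop) h))).trans ?_
        exact val_res (s.app k (ULift.up w.σ) : RN G k.unop) w.σ h α.unop _ }
  naturality j j' f := by
    refine NatTrans.ext (funext fun k => ?_)
    refine ConcreteCategory.hom_ext _ _ fun (w : ULift.{u} (WS j.unop k.unop)) => ?_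
    exact sp_comp G w.down.u.op f _

/-- The weight lifts against objectwise trivial fibrations. -/
theorem W_lift {G G' : SPU.{u} J} (q : G ⟶ G') (hq : ∀ j, TrivFib (q.app j)) (f : WU J ⟶ G') :
    ∃ g : WU J ⟶ G, g ≫ q = f := by
  have hl := TrivFib.lift (rnv_trivFib q hq) ((⊥ : (NvU.{u} J).Subcomplex).ι)
  let t : ((⊥ : (NvU.{u} J).Subcomplex) : SSet.{u}) ⟶ RNv G :=
    { app := fun k => ↾ fun x => (x.2 : False).elim
      naturality := fun k l α => by
        ext x
        exact (x.2 : False).elim }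
  have sq : CommSq t ((⊥ : (NvU.{u} J).Subcomplex).ι) (RNv.mapq q) (secOf f) := ⟨by
    ext k x
    exact (x.2 : False).elim⟩
  have h2 : sq.lift ≫ RNv.mapq q = secOf f := sq.fac_right
  have hs : sq.lift ≫ RNv.proj G = 𝟙 _ := by
    have h3 : sq.lift ≫ RNv.mapq q ≫ RNv.proj G' = secOf f ≫ RNv.proj G' :=
      (Category.assoc _ _ _).symm.trans (congrArg (· ≫ RNv.proj G') h2)
    exact h3
  refine ⟨ofSec sq.lift hs, ?_⟩
  refine NatTrans.ext (funext fun j => NatTrans.ext (funext fun k => ?_))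
  refine ConcreteCategory.hom_ext _ _ fun (w : ULift.{u} (WS j.unop k.unop)) => ?_
  obtain ⟨w⟩ := w
  have h := sec_σ hs w.σ
  change (q.app j).app k ((G.map w.u.op).app k
    (val (sq.lift.app k (ULift.up w.σ) : RN G k.unop) w.σ h)) = (f.app j).app k (ULift.up w)
  refine (hom_nat q w.u.op _).trans ?_
  have h4 : (sq.lift.app k (ULift.up w.σ) : RN G k.unop).mapq q =
      (secOf f).app k (ULift.up w.σ) :=
    congrArg (fun (f : NvU J ⟶ RNv G') => f.app k (ULift.up w.σ)) h2
  refine (congrArg ((G'.map w.u.op).app k)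
    ((val_mapq q (sq.lift.app k (ULift.up w.σ) : RN G k.unop) w.σ h h).symm.trans
      (val_congr h4 w.σ h rfl))).trans ?_
  refine (hom_nat f w.u.op (a := op (w.σ.obj 0))
    (ULift.up (⟨w.σ, 𝟙 _⟩ : WS _ k.unop))).symm.trans ?_
  refine congrArg ((f.app j).app k) (congrArg ULift.up ?_)
  obtain ⟨σ, u⟩ := w
  exact congrArg (WS.mk σ) (Category.comp_id u)

end Pool.Agent.Helper43.FLU
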