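import Pool.Agent.Helper43.FLU.RKE
import Pool.Agent.Helper82.FL.Yinj

/-!
# Project FLQ: morphisms `F ⟶ Y D`, injective fibrancy of `Y D` in large presheaves
-/

open CategoryTheory MonoidalCategory Opposite

set_option autoImplicit false

namespace Pool.Agent.Helper43.FLU

open FL (SP HoEq Htpy sset_id sset_comp sset_nat Chain WS W BrS Th CatN IsCat Hoco HS coneS diag_comp
  Gn YD ND rep repMap filt yoS tower yo)
open FLQ (SPU)
open Pool.Agent.Helper82.FL15 (yoS_res yoS_map yoS_comp yoS_one)

variable {n : ℕ}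

/-- The restriction to `Θ_n`. -/
noncomputable abbrev PSh.restr (F : PSh n) (hrep : ∀ θ : Th n, IsCat n (rep θ)) :
    SPU.{1} (Th n) := F.along (yo (Th n)) hrep

/-- The restriction of a morphism `F ⟶ Y D` to `Θ_n`. -/
noncomputable def toRestr (hrep : ∀ θ : Th n, IsCat n (rep θ)) {F : PSh n} {D : SP (Gn n)}
    (φ : PSh.Hom F (upPSh (YD D))) : F.restr hrep ⟶ upP (ND D) where
  app a := φ.app ⟨rep a.unop, hrep _⟩
  naturality a b f := by
    ext k x
    exact φ.act (C := ⟨rep b.unop, hrep _⟩) (C' := ⟨rep a.unop, hrep _⟩)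
      (FL.MpS.ofHom k.unop (repMap f.unop)) x

/-- The restriction of a morphism of presheaves to `Θ_n`. -/
noncomputable def restrHom (hrep : ∀ θ : Th n, IsCat n (rep θ)) {F G : PSh n}
    (φ : PSh.Hom F G) : F.restr hrep ⟶ G.restr hrep where
  app a := φ.app ⟨rep a.unop, hrep _⟩
  naturality a b f := by
    ext k x
    exact φ.act (C := ⟨rep b.unop, hrep _⟩) (C' := ⟨rep a.unop, hrep _⟩)
      (FL.MpS.ofHom k.unop (repMap f.unop)) x

/-- Composition of morphisms of presheaves. -/
def homComp {F G H : PSh n} (φ : PSh.Hom F G) (ψ : PSh.Hom G H) : PSh.Hom F H where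
  app C := φ.app C ≫ ψ.app C
  act {C _} k χ x := (congrArg ((ψ.app C).app k) (φ.act χ x)).trans (ψ.act χ _)

/-- The values of `φ`. -/
def vl (D : SP (Gn n)) {C : SP (Th n)} {k : SimplexCategoryᵒᵖ}
    (y : (SSet.uliftFunctor.{1, 0}.obj (FL.Mp (filt C) D)).obj k) :
    FL.MpS (filt C) D k.unop := ULift.down y

/-- The formula for a morphism in terms of its restriction. -/
theorem formula (hrep : ∀ θ : Th n, IsCat n (rep θ)) {F : PSh n} {D : SP (Gn n)}
    (φ : PSh.Hom F (upPSh (YD D))) (C : CatN n) (k : SimplexCategoryᵒᵖ) (x : (F.obj C).obj k)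
    (g : (Gn n)ᵒᵖ) (m : SimplexCategoryᵒᵖ) (t : m.unop ⟶ k.unop)
    (c : (C.1.obj (op ((tower n).obj g.unop))).obj m) :
    (vl D (C := C.1) ((φ.app C).app k x)).app g m t c =
      (vl D (C := rep ((tower n).obj g.unop))
        (((toRestr hrep φ).app (op ((tower n).obj g.unop))).app m
        (F.act (C := ⟨rep _, hrep _⟩) (C' := C) (yoS c) ((F.obj C).map t.op x)))).app g m (𝟙 _)
          (𝟙 ((tower n).obj g.unop)) := by
  have h1 := φ.act (C := ⟨rep _, hrep _⟩) (C' := C)
    (yoS (C := C.1) (a := (tower n).obj g.unop) (k := m.unop) c) ((F.obj C).map t.op x)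
  have h2 : vl D (C := C.1) ((φ.app C).app m ((F.obj C).map t.op x)) =
      FL.MpS.res t (vl D (C := C.1) ((φ.app C).app k x)) :=
    congrArg (vl D (C := C.1)) (sset_nat (φ.app C) t.op x)
  refine Eq.trans ?_ (congrArg (fun w => (vl D (C := rep ((tower n).obj g.unop)) w).app g m (𝟙 _)
    (𝟙 ((tower n).obj g.unop))) h1.symm)
  refine Eq.trans ?_ (congrArg (fun w : FL.MpS (filt C.1) D m.unop =>
    ((YD D).act (C := ⟨rep _, hrep _⟩) (C' := C)
      (yoS (C := C.1) (a := (tower n).obj g.unop) (k := m.unop) c) w :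
        FL.MpS (filt (rep ((tower n).obj g.unop))) D m.unop).app g m (𝟙 _)
          (𝟙 ((tower n).obj g.unop))) h2.symm)
  show _ = (vl D (C := C.1) ((φ.app C).app k x)).app g m (𝟙 _ ≫ t)
    ((yoS (C := C.1) (a := (tower n).obj g.unop) (k := m.unop) c).app
      (op ((tower n).obj g.unop)) m (𝟙 _) (𝟙 ((tower n).obj g.unop)))
  rw [yoS_one, Category.id_comp]

/-- The simplex given by the formula. -/
noncomputable def extS (hrep : ∀ θ : Th n, IsCat n (rep θ)) {F : PSh n} {D : SP (Gn n)}
    (χ : F.restr hrep ⟶ upP (ND D)) (C : CatN n) (k : SimplexCategoryᵒᵖ) (x : (F.obj C).obj k) :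
    FL.MpS (filt C.1) D k.unop where
  app g m t c := (vl D (C := rep ((tower n).obj g.unop))
      ((χ.app (op ((tower n).obj g.unop))).app m
        (F.act (C := ⟨rep _, hrep _⟩) (C' := C)
          (yoS (C := C.1) (a := (tower n).obj g.unop) (k := m.unop) c)
            ((F.obj C).map t.op x)))).app g m (𝟙 _) (𝟙 ((tower n).obj g.unop))
  nat_left {g g'} f m t c := by
    have h1 := yoS_map (C := C.1) (k := m) ((tower n).map f.unop) c
    have h2 := F.act_comp (C := ⟨rep _, hrep _⟩) (C' := ⟨rep _, hrep _⟩) (C'' := C)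
      (FL.MpS.ofHom m.unop (repMap ((tower n).map f.unop)))
      (yoS (C := C.1) (a := (tower n).obj g.unop) (k := m.unop) c) ((F.obj C).map t.op x)
    have h3 : F.act (C := ⟨rep _, hrep _⟩) (C' := C) (yoS (C := C.1) (a := (tower n).obj g'.unop)
        (k := m.unop) ((C.1.map ((tower n).map f.unop).op).app m c)) ((F.obj C).map t.op x) =
        ((F.restr hrep).map ((tower n).map f.unop).op).app m
          (F.act (C := ⟨rep _, hrep _⟩) (C' := C)
            (yoS (C := C.1) (a := (tower n).obj g.unop) (k := m.unop) c)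
            ((F.obj C).map t.op x)) :=
      (congrArg (fun w => F.act (C := ⟨rep _, hrep _⟩) (C' := C) w ((F.obj C).map t.op x)) h1).trans
        h2
    have h4 := hom_nat χ ((tower n).map f.unop).op (k := m)
      (F.act (C := ⟨rep _, hrep _⟩) (C' := C)
            (yoS (C := C.1) (a := (tower n).obj g.unop) (k := m.unop) c)
            ((F.obj C).map t.op x))
    refine (congrArg (fun w => (vl D (C := rep ((tower n).obj g'.unop))
      ((χ.app (op ((tower n).obj g'.unop))).app m w)).app g' m (𝟙 _)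
        (𝟙 ((tower n).obj g'.unop))) h3).trans ?_
    refine (congrArg (fun w => (vl D (C := rep ((tower n).obj g'.unop)) w).app g' m (𝟙 _)
      (𝟙 ((tower n).obj g'.unop))) h4).trans ?_
    refine Eq.trans ?_ (FL.MpS.nat_left (vl D (C := rep ((tower n).obj g.unop))
      ((χ.app (op ((tower n).obj g.unop))).app m
        (F.act (C := ⟨rep _, hrep _⟩) (C' := C)
          (yoS (C := C.1) (a := (tower n).obj g.unop) (k := m.unop) c)
            ((F.obj C).map t.op x)))) f m (𝟙 _) (𝟙 ((tower n).obj g.unop)))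
    refine congrArg (FL.MpS.app (vl D (C := rep ((tower n).obj g.unop))
      ((χ.app (op ((tower n).obj g.unop))).app m
        (F.act (C := ⟨rep _, hrep _⟩) (C' := C)
          (yoS (C := C.1) (a := (tower n).obj g.unop) (k := m.unop) c)
            ((F.obj C).map t.op x)))) g' m (𝟙 _)) ?_
    exact (Category.id_comp ((tower n).map f.unop)).trans
      (Category.comp_id ((tower n).map f.unop)).symm
  nat_right g {m l} α s c := by
    have h1 := yoS_res (C := C.1) α c
    have h2 := F.act_nat (C := ⟨rep _, hrep _⟩) (C' := C) α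
      (yoS (C := C.1) (a := (tower n).obj g.unop) (k := m.unop) c) ((F.obj C).map s.op x)
    have h3 : F.act (C := ⟨rep _, hrep _⟩) (C' := C) (yoS (C := C.1) (a := (tower n).obj g.unop)
        (k := l.unop) ((C.1.obj _).map α c)) ((F.obj C).map (α.unop ≫ s).op x) =
        (F.obj ⟨rep _, hrep _⟩).map α (F.act (C := ⟨rep _, hrep _⟩) (C' := C)
            (yoS (C := C.1) (a := (tower n).obj g.unop) (k := m.unop) c)
            ((F.obj C).map s.op x)) :=
      (congrArg₂ (F.act (C := ⟨rep _, hrep _⟩) (C' := C)) h1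
        (sset_comp (F.obj C) s.op α x)).trans h2
    have h4 := hom_natk χ α (F.act (C := ⟨rep _, hrep _⟩) (C' := C)
            (yoS (C := C.1) (a := (tower n).obj g.unop) (k := m.unop) c)
            ((F.obj C).map s.op x))
    refine (congrArg (fun w => (vl D (C := rep ((tower n).obj g.unop))
      ((χ.app (op ((tower n).obj g.unop))).app l w)).app g l (𝟙 _)
        (𝟙 ((tower n).obj g.unop))) h3).trans ?_
    refine (congrArg (fun w => (vl D (C := rep ((tower n).obj g.unop)) w).app g l (𝟙 _)
      (𝟙 ((tower n).obj g.unop))) h4).trans ?_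
    refine Eq.trans ?_ (FL.MpS.nat_right (vl D (C := rep ((tower n).obj g.unop))
      ((χ.app (op ((tower n).obj g.unop))).app m
        (F.act (C := ⟨rep _, hrep _⟩) (C' := C)
          (yoS (C := C.1) (a := (tower n).obj g.unop) (k := m.unop) c)
            ((F.obj C).map s.op x)))) g α (𝟙 _) (𝟙 ((tower n).obj g.unop)))
    refine congrArg (fun w => FL.MpS.app (vl D (C := rep ((tower n).obj g.unop))
      ((χ.app (op ((tower n).obj g.unop))).app m
        (F.act (C := ⟨rep _, hrep _⟩) (C' := C)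
          (yoS (C := C.1) (a := (tower n).obj g.unop) (k := m.unop) c)
            ((F.obj C).map s.op x)))) g l w (𝟙 ((tower n).obj g.unop))) ?_
    exact (Category.id_comp _).trans (Category.comp_id _).symm

/-- The extension of a morphism defined on `Θ_n`. -/
noncomputable def ofRestr (hrep : ∀ θ : Th n, IsCat n (rep θ)) {F : PSh n} {D : SP (Gn n)}
    (χ : F.restr hrep ⟶ upP (ND D)) : PSh.Hom F (upPSh (YD D)) where
  app C :=
    { app := fun k => ↾ fun x => ULift.up (extS hrep χ C k x)
      naturality := fun k l α => by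
        refine ConcreteCategory.hom_ext _ _ fun x => ?_
        refine congrArg ULift.up ?_
        refine FL.MpS.ext ?_
        funext g m t c
        refine congrArg (fun w => (vl D (C := rep ((tower n).obj g.unop))
          ((χ.app (op ((tower n).obj g.unop))).app m
          (F.act (C := ⟨rep _, hrep _⟩) (C' := C)
            (yoS (C := C.1) (a := (tower n).obj g.unop) (k := m.unop) c) w))).app g m (𝟙 _)
              (𝟙 ((tower n).obj g.unop))) ?_
        exact (sset_comp (F.obj C) α t.op x).symm }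
  act {C C'} k φ x := by
    refine congrArg ULift.up ?_
    refine FL.MpS.ext ?_
    funext g m t c
    have h1 := F.act_nat (C := C) (C' := C') t.op φ x
    have h2 := F.act_comp (C := ⟨rep _, hrep _⟩) (C' := C) (C'' := C')
      (yoS (C := C.1) (a := (tower n).obj g.unop) (k := m.unop) c) (φ.res t)
      ((F.obj C').map t.op x)
    have h3 := yoS_comp (C := C.1) (C' := C'.1) φ t (a := (tower n).obj g.unop) c
    refine congrArg (fun w => (vl D (C := rep ((tower n).obj g.unop))
      ((χ.app (op ((tower n).obj g.unop))).app m w)).app g m (𝟙 _)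
        (𝟙 ((tower n).obj g.unop))) ?_
    refine (congrArg (F.act (C := ⟨rep _, hrep _⟩) (C' := C)
      (yoS (C := C.1) (a := (tower n).obj g.unop) (k := m.unop) c)) h1.symm).trans ?_
    refine h2.symm.trans ?_
    exact congrArg (fun w => F.act (C := ⟨rep _, hrep _⟩) (C' := C') w
      ((F.obj C').map t.op x)) h3

theorem toRestr_ofRestr (hrep : ∀ θ : Th n, IsCat n (rep θ)) {F : PSh n} {D : SP (Gn n)}
    (χ : F.restr hrep ⟶ upP (ND D)) : toRestr hrep (ofRestr hrep χ) = χ := by
  refine NatTrans.ext (funext fun a => NatTrans.ext (funext fun k =>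
    ConcreteCategory.hom_ext _ _ fun x => ?_))
  refine congrArg ULift.up (FL.MpS.ext (x := extS hrep χ ⟨rep a.unop, hrep _⟩ k x)
    (y := vl D (C := rep a.unop) ((χ.app a).app k x)) ?_)
  funext g m t c
  have h2 := hom_nat χ (Quiver.Hom.op (c : (tower n).obj g.unop ⟶ a.unop)) (k := m)
    (((F.restr hrep).obj a).map t.op x)
  have h3 := hom_natk χ t.op x
  refine (congrArg (fun w => (vl D (C := rep ((tower n).obj g.unop)) w).app g m (𝟙 _)
    (𝟙 ((tower n).obj g.unop))) h2).trans ?_
  refine (congrArg (fun w => (vl D (C := rep ((tower n).obj g.unop))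
    (((upP (ND D)).map (Quiver.Hom.op (c : (tower n).obj g.unop ⟶ a.unop))).app m w)).app g m
      (𝟙 _) (𝟙 ((tower n).obj g.unop))) h3).trans ?_
  have e1 : 𝟙 m.unop ≫ t = t := Category.id_comp t
  have e2 : 𝟙 ((tower n).obj g.unop) ≫ (c : (tower n).obj g.unop ⟶ a.unop) = c :=
    Category.id_comp _
  exact congrArg₂ (fun (t : m.unop ⟶ k.unop) (c : (tower n).obj g.unop ⟶ a.unop) =>
    (vl D (C := rep a.unop) ((χ.app a).app k x)).app g m t c) e1 e2

theorem hom_ext {F G : PSh n} {φ ψ : PSh.Hom F G} (h : ∀ C, φ.app C = ψ.app C) : φ = ψ := by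
  obtain ⟨a, _⟩ := φ
  obtain ⟨b, _⟩ := ψ
  have : a = b := funext h
  subst this
  rfl

theorem toRestr_injective (hrep : ∀ θ : Th n, IsCat n (rep θ)) {F : PSh n} {D : SP (Gn n)}
    {φ ψ : PSh.Hom F (upPSh (YD D))} (h : toRestr hrep φ = toRestr hrep ψ) : φ = ψ := by
  refine hom_ext fun C => ?_
  refine NatTrans.ext (funext fun k => ConcreteCategory.hom_ext _ _ fun x => ?_)
  refine congrArg ULift.up (FL.MpS.ext (x := vl D (C := C.1) ((φ.app C).app k x))
    (y := vl D (C := C.1) ((ψ.app C).app k x)) ?_)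
  funext g m t c
  refine (formula hrep φ C k x g m t c).trans (Eq.trans ?_ (formula hrep ψ C k x g m t c).symm)
  rw [h]

/-- Injectively fibrant presheaves on `Cat_n`. -/
def PSh.InjFib (G : PSh n) : Prop :=
  ∀ (F F' : PSh n) (i : PSh.Hom F F'), (∀ C, Mono (i.app C)) →
    (∀ C, ∀ K : SSet.{1}, SSet.KanComplex K → HoEq ((MonoidalClosed.pre (i.app C)).app K)) →
    ∀ f : PSh.Hom F G, ∃ g : PSh.Hom F' G, ∀ C, i.app C ≫ g.app C = f.app C

theorem YD_injFib (hrep : ∀ θ : Th n, IsCat n (rep θ)) (D : SP (Gn n)) (hD : FL.InjFib D) :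
    (upPSh (YD D)).InjFib := by
  intro F F' i hm hw f
  obtain ⟨g, hg⟩ := injFib_up (Pool.Agent.Helper36.FL.ND_injFib hD) (restrHom hrep i)
    ⟨fun a => hm _, fun a => hw _⟩ (toRestr hrep f)
  refine ⟨ofRestr hrep g, fun C => ?_⟩
  have h1 : homComp i (ofRestr hrep g) = f := by
    apply toRestr_injective hrep
    rw [← hg]
    have h2 : toRestr hrep (homComp i (ofRestr hrep g)) =
        restrHom hrep i ≫ toRestr hrep (ofRestr hrep g) := rfl
    rw [h2, toRestr_ofRestr]
  rw [← h1]
  rfl

end Pool.Agent.Helper43.FLU
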